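import Mathlib
import Pool.Agent.H373R2.T7.Fund

/-!
Many integers up to `n` avoid a system of at most `c` classes modulo every prime up to `n ^ (1 / K)`.
-/

set_option autoImplicit false

namespace Pool.Agent.V1153.GG

open Finset Pool.Agent.H373R2.T7

theorem one_sub_ge {c p : ℕ} (hp : 4 * c ≤ p) (hp0 : 0 < p) :
    (1 - 1 / (p : ℝ)) ^ (2 * c) ≤ 1 - (c : ℝ) / p := by
  have hp' : (0 : ℝ) < p := by exact_mod_cast hp0
  have h1 : 1 - 1 / (p : ℝ) ≤ Real.exp (-(1 / (p : ℝ))) := by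
    have := Real.add_one_le_exp (-(1 / (p : ℝ)))
    linarith
  have h0 : 0 ≤ 1 - 1 / (p : ℝ) := by
    have : 1 / (p : ℝ) ≤ 1 := by
      rw [div_le_one hp']
      exact_mod_cast hp0
    linarith
  have h2 : (1 - 1 / (p : ℝ)) ^ (2 * c) ≤ Real.exp (-(2 * c / (p : ℝ))) := by
    calc (1 - 1 / (p : ℝ)) ^ (2 * c) ≤ Real.exp (-(1 / (p : ℝ))) ^ (2 * c) :=
          pow_le_pow_left₀ h0 h1 _
      _ = Real.exp (-(2 * c / (p : ℝ))) := by
          rw [← Real.exp_nat_mul]
          congr 1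
          push_cast
          ring
  have ht : (2 * c / (p : ℝ)) ≤ 1 / 2 := by
    rw [div_le_div_iff₀ hp' (by norm_num)]
    have : (4 * (c : ℝ)) ≤ p := by exact_mod_cast hp
    linarith
  have ht0 : 0 ≤ (2 * c / (p : ℝ)) := by positivity
  have h3 := Real.abs_exp_sub_one_sub_id_le (x := -(2 * c / (p : ℝ))) (by
    rw [abs_neg, abs_of_nonneg ht0]
    linarith)
  have h4 := (abs_le.1 h3).2
  have h5 : (-(2 * c / (p : ℝ))) ^ 2 ≤ (1 / 2) * (2 * c / (p : ℝ)) := by
    rw [neg_sq, sq]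
    exact mul_le_mul_of_nonneg_right ht ht0
  have h6 : (c : ℝ) / p = (1 / 2) * (2 * c / (p : ℝ)) := by ring
  rw [h6]
  linarith

theorem prod_ge (c : ℕ) (hc : 1 ≤ c) (Q : ℕ → ℕ → Prop) (hQ : PerB Q c)
    (had : ∀ p, p.Prime → nuB Q p < p) (y : ℕ) :
    (1 / (4 * c : ℝ)) ^ (4 * c) * Vz y ^ (2 * c) ≤ ∏ p ∈ pz y, (1 - (nuB Q p : ℝ) / p) := by
  classical
  have hc' : (1 : ℝ) ≤ c := by exact_mod_cast hc
  have key : ∀ p ∈ pz y, (if p < 4 * c then 1 / (4 * c : ℝ) else 1) * (1 - 1 / (p : ℝ)) ^ (2 * c) ≤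
      1 - (nuB Q p : ℝ) / p := by
    intro p hp
    have hpp := (mem_pz.1 hp).2
    have hp0 : (0 : ℝ) < p := by exact_mod_cast hpp.pos
    split_ifs with h
    · have h1 : (1 - 1 / (p : ℝ)) ^ (2 * c) ≤ 1 := by
        apply pow_le_one₀
        · have : 1 / (p : ℝ) ≤ 1 := by
            rw [div_le_one hp0]
            exact_mod_cast hpp.one_le
          linarith
        · have : 0 ≤ 1 / (p : ℝ) := by positivity
          linarith
      have h2 : 1 / (p : ℝ) ≤ 1 - (nuB Q p : ℝ) / p := by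
        have h3 : (nuB Q p : ℝ) + 1 ≤ p := by exact_mod_cast had p hpp
        rw [le_sub_iff_add_le, ← add_div, div_le_one hp0]
        linarith
      have h3 : 1 / (4 * c : ℝ) ≤ 1 / (p : ℝ) := by
        apply one_div_le_one_div_of_le hp0
        exact_mod_cast h.le
      calc 1 / (4 * c : ℝ) * (1 - 1 / (p : ℝ)) ^ (2 * c) ≤ 1 / (4 * c : ℝ) * 1 :=
            mul_le_mul_of_nonneg_left h1 (by positivity)
        _ ≤ _ := by
            rw [mul_one]
            exact h3.trans h2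
    · rw [one_mul]
      refine (one_sub_ge (c := c) (not_lt.1 h) hpp.pos).trans ?_
      have h3 : (nuB Q p : ℝ) / p ≤ c / p := by
        apply div_le_div_of_nonneg_right _ hp0.le
        exact_mod_cast hQ.few p hpp
      linarith
  have h0 : ∀ p ∈ pz y, 0 ≤ (if p < 4 * c then 1 / (4 * c : ℝ) else 1) * (1 - 1 / (p : ℝ)) ^ (2 * c) := by
    intro p hp
    have hpp := (mem_pz.1 hp).2
    have hp0 : (0 : ℝ) < p := by exact_mod_cast hpp.pos
    have h1 : 0 ≤ 1 - 1 / (p : ℝ) := by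
      have : 1 / (p : ℝ) ≤ 1 := by
        rw [div_le_one hp0]
        exact_mod_cast hpp.one_le
      linarith
    split_ifs <;> positivity
  refine le_trans ?_ (prod_le_prod h0 key)
  rw [prod_mul_distrib, prod_pow]
  have h2 : (1 / (4 * c : ℝ)) ^ (4 * c) ≤ ∏ p ∈ pz y, (if p < 4 * c then 1 / (4 * c : ℝ) else 1) := by
    rw [prod_ite, prod_const_one, mul_one, prod_const]
    apply pow_le_pow_of_le_one (by positivity)
    · rw [div_le_one (by positivity)]
      linarith
    · calc ((pz y).filter (fun p => p < 4 * c)).card ≤ (range (4 * c)).card := by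
            apply card_le_card
            intro p hp
            exact mem_range.2 (mem_filter.1 hp).2
        _ = 4 * c := card_range _
  exact mul_le_mul_of_nonneg_right h2 (pow_nonneg (Vz_pos y).le _)

/-- eventually a power of the logarithm is small compared with `√n` -/
theorem ev_log (A : ℝ) (m : ℕ) : ∃ n0 : ℕ, ∀ n : ℕ, n0 ≤ n → A * Real.log n ^ m ≤ √(n : ℝ) := by
  have h1 : (fun x : ℝ => Real.log x ^ m) =o[Filter.atTop] fun x : ℝ => x ^ (1 / 2 : ℝ) := by
    have := isLittleO_log_rpow_rpow_atTop (s := 1 / 2) (m : ℝ) (by norm_num)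
    simpa using this
  have h2 := h1.bound (c := 1 / (|A| + 1)) (by positivity)
  have h3 := (tendsto_natCast_atTop_atTop (R := ℝ)).eventually h2
  obtain ⟨n0, hn0⟩ := Filter.eventually_atTop.1 h3
  refine ⟨max n0 1, fun n hn => ?_⟩
  have h4 := hn0 n (le_trans (le_max_left _ _) hn)
  have hn1 : (1 : ℝ) ≤ n := by exact_mod_cast le_trans (le_max_right _ _) hn
  have hl : 0 ≤ Real.log (n : ℝ) := Real.log_nonneg hn1
  rw [Real.norm_of_nonneg (pow_nonneg hl _), Real.norm_of_nonneg (by positivity),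
    ← Real.sqrt_eq_rpow] at h4
  calc A * Real.log n ^ m ≤ (|A| + 1) * Real.log n ^ m := by
        apply mul_le_mul_of_nonneg_right _ (pow_nonneg hl _)
        have := le_abs_self A
        linarith
    _ ≤ (|A| + 1) * (1 / (|A| + 1) * √(n : ℝ)) := mul_le_mul_of_nonneg_left h4 (by positivity)
    _ = √(n : ℝ) := by
        rw [← mul_assoc, mul_one_div_cancel (by positivity), one_mul]

open Classical in
/-- Many integers avoid at most `c` classes modulo each prime up to `n ^ (1 / K)`. -/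
theorem count_many (c : ℕ) (hc : 1 ≤ c) : ∃ K N : ℕ, 1 ≤ K ∧ ∀ n : ℕ, N ≤ n → ∀ y : ℕ, y ^ K ≤ n →
    ∀ Q : ℕ → ℕ → Prop, PerB Q c → (∀ p, p.Prime → nuB Q p < p) →
      7 ≤ ((Icc 1 (n - 3)).filter (fun m => ∀ p ∈ pz y, ¬ Q p m)).card := by
  obtain ⟨K, x0, hK, hF⟩ := sys_fund c hc (1 / 2) (by norm_num)
  obtain ⟨C, N0, hV⟩ := Vz_low
  set z := max x0 (max N0 2) with hz
  set c0 : ℝ := (1 / (4 * c : ℝ)) ^ (4 * c) with hc0
  have hc' : (1 : ℝ) ≤ c := by exact_mod_cast hc
  have hc0' : 0 < c0 := by positivity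
  obtain ⟨n0, hn0⟩ := ev_log (12 / c0) (C * (2 * c))
  refine ⟨K, max (z ^ K) (max n0 49), hK, fun n hn y hy Q hQ had => ?_⟩
  have hn1 : z ^ K ≤ n := (le_max_left _ _).trans hn
  have hn2 : n0 ≤ n := (le_trans (le_max_left _ _) (le_max_right _ _)).trans hn
  have hn3 : 49 ≤ n := (le_trans (le_max_right _ _) (le_max_right _ _)).trans hn
  obtain ⟨y', hy'⟩ : ∃ y', y' = max y z := ⟨_, rfl⟩
  have hy'K : y' ^ K ≤ n := by
    rcases le_total y z with h | h
    · rw [hy', max_eq_right h]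
      exact hn1
    · rw [hy', max_eq_left h]
      exact hy
  have hzy : z ≤ y' := hy' ▸ le_max_right _ _
  have h1 := hF n y' ((le_max_left _ _).trans hzy) hy'K Q hQ (n - 3)
  have h2 := (abs_le.1 h1).1
  have hN0 : N0 ≤ y' := (le_trans (le_max_left _ _) (le_max_right _ _)).trans hzy
  have h2y : 2 ≤ y' := (le_trans (le_max_right _ _) (le_max_right _ _)).trans hzy
  have hyn : y' ≤ n := by
    refine le_trans ?_ hy'K
    calc y' = y' ^ 1 := (pow_one _).symm
      _ ≤ y' ^ K := Nat.pow_le_pow_right (by omega) hK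
  have hnr : (49 : ℝ) ≤ n := by exact_mod_cast hn3
  have hly : 0 < Real.log y' := Real.log_pos (by exact_mod_cast (by omega : 1 < y'))
  have hln : Real.log y' ≤ Real.log n :=
    Real.log_le_log (by exact_mod_cast (by omega : 0 < y')) (by exact_mod_cast hyn)
  have hln0 : 0 < Real.log n := hly.trans_le hln
  obtain ⟨V, hVd⟩ : ∃ V : ℝ, V = ∏ p ∈ pz y', (1 - (nuB Q p : ℝ) / p) := ⟨_, rfl⟩
  rw [← hVd] at h2
  have h3 : c0 / Real.log n ^ (C * (2 * c)) ≤ V := by
    rw [hVd]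
    refine le_trans ?_ (prod_ge c hc Q hQ had y')
    rw [div_eq_mul_one_div]
    apply mul_le_mul_of_nonneg_left _ hc0'.le
    calc 1 / Real.log n ^ (C * (2 * c)) ≤ 1 / Real.log y' ^ (C * (2 * c)) := by
          apply one_div_le_one_div_of_le (pow_pos hly _)
          exact pow_le_pow_left₀ hly.le hln _
      _ = (1 / Real.log y' ^ C) ^ (2 * c) := by rw [one_div_pow, ← pow_mul]
      _ ≤ Vz y' ^ (2 * c) := pow_le_pow_left₀ (by positivity) (hV y' hN0) _
  have h4 := hn0 n hn2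
  have h5 : 12 * √(n : ℝ) ≤ n * V := by
    have hL : 0 < Real.log n ^ (C * (2 * c)) := pow_pos hln0 _
    have h6 : 12 * Real.log n ^ (C * (2 * c)) ≤ c0 * √(n : ℝ) := by
      have := mul_le_mul_of_nonneg_left h4 hc0'.le
      calc 12 * Real.log n ^ (C * (2 * c)) = c0 * (12 / c0 * Real.log n ^ (C * (2 * c))) := by
            field_simp
        _ ≤ _ := this
    calc 12 * √(n : ℝ) = (12 * Real.log n ^ (C * (2 * c))) * √(n : ℝ) / Real.log n ^ (C * (2 * c)) := by
          field_simp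
      _ ≤ (c0 * √(n : ℝ)) * √(n : ℝ) / Real.log n ^ (C * (2 * c)) := by
          gcongr
      _ = n * (c0 / Real.log n ^ (C * (2 * c))) := by
          rw [mul_assoc, Real.mul_self_sqrt (by positivity)]
          ring
      _ ≤ n * V := mul_le_mul_of_nonneg_left h3 (by positivity)
  have h7 : (7 : ℝ) ≤ √(n : ℝ) := by
    rw [Real.le_sqrt (by norm_num) (by positivity)]
    linarith
  have h8 : ((n - 3 : ℕ) : ℝ) = n - 3 := by
    rw [Nat.cast_sub (by omega)]
    norm_num
  rw [h8] at h2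
  have hV1 : V ≤ 1 := by
    rw [hVd]
    apply prod_le_one
    · intro p hp
      have hpp := (mem_pz.1 hp).2
      have hp0 : (0 : ℝ) < p := by exact_mod_cast hpp.pos
      have : (nuB Q p : ℝ) / p ≤ 1 := by
        rw [div_le_one hp0]
        exact_mod_cast nuB_le Q p
      linarith
    · intro p hp
      have : 0 ≤ (nuB Q p : ℝ) / p := by positivity
      linarith
  have h9 : (7 : ℝ) ≤ (((Icc 1 (n - 3)).filter (fun m => ∀ p ∈ pz y', ¬ Q p m)).card : ℝ) := by
    nlinarith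
  have h10 : 7 ≤ ((Icc 1 (n - 3)).filter (fun m => ∀ p ∈ pz y', ¬ Q p m)).card := by
    exact_mod_cast h9
  refine h10.trans (card_le_card ?_)
  intro m hm
  rw [mem_filter] at hm ⊢
  refine ⟨hm.1, fun p hp => hm.2 p ?_⟩
  rw [mem_pz] at hp ⊢
  exact ⟨hp.1.trans (hy' ▸ le_max_left _ _), hp.2⟩

end Pool.Agent.V1153.GG
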