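import Mathlib

/-!
A finite graph in which all balls of radius two are large has few components, of small diameter.
-/

set_option autoImplicit false

namespace Pool.Agent.V1153.GG

open SimpleGraph Finset

/-- vertices on a shortest walk -/
theorem geo {V : Type} {H : SimpleGraph V} {a b : V} (h : H.Reachable a b) (i : ℕ) (hi : i ≤ H.dist a b) :
    ∃ x : V, H.Reachable a x ∧ H.dist a x = i := by
  obtain ⟨p, hp⟩ := h.exists_walk_length_eq_dist
  refine ⟨p.getVert i, (p.take i).reachable, ?_⟩
  have h1 : H.dist a (p.getVert i) ≤ i := by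
    have := SimpleGraph.dist_le (p.take i)
    rw [Walk.take_length] at this
    omega
  have h2 : H.dist (p.getVert i) b ≤ p.length - i := by
    have := SimpleGraph.dist_le (p.drop i)
    rw [Walk.drop_length] at this
    exact this
  have h3 : H.dist a b ≤ H.dist a (p.getVert i) + H.dist (p.getVert i) b := by
    obtain ⟨q, hq⟩ := (p.take i).reachable.exists_walk_length_eq_dist
    obtain ⟨r, hr⟩ := (p.drop i).reachable.exists_walk_length_eq_dist
    rw [← hq, ← hr, ← Walk.length_append]
    exact SimpleGraph.dist_le _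
  omega

/-- the vertices joined to `v` by a walk of length at most two -/
noncomputable def ball {V : Type} [Fintype V] (H : SimpleGraph V) (v : V) : Finset V := by
  classical
  exact univ.filter fun w => ∃ p : H.Walk v w, p.length ≤ 2

theorem mem_ball {V : Type} [Fintype V] {H : SimpleGraph V} {v w : V} :
    w ∈ ball H v ↔ ∃ p : H.Walk v w, p.length ≤ 2 := by
  classical
  unfold ball
  rw [mem_filter]
  exact ⟨fun h => h.2, fun h => ⟨mem_univ _, h⟩⟩

theorem pack {V ι : Type} [Fintype V] {H : SimpleGraph V} {M δ : ℝ} (hM : 0 < M) (hδ : 0 < δ)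
    (hV : (Fintype.card V : ℝ) ≤ M) (hb : ∀ v, δ * M ≤ (ball H v).card) (s : Finset ι) (f : ι → V)
    (hf : ∀ i ∈ s, ∀ j ∈ s, i ≠ j → ∀ p : H.Walk (f i) (f j), 4 < p.length) : (s.card : ℝ) ≤ 1 / δ := by
  classical
  have h1 : (s.biUnion fun i => ball H (f i)).card = ∑ i ∈ s, (ball H (f i)).card := by
    refine card_biUnion fun i hi j hj hij => ?_
    change Disjoint (ball H (f i)) (ball H (f j))
    rw [Finset.disjoint_left]
    intro w hw1 hw2
    obtain ⟨p, hp⟩ := mem_ball.1 hw1
    obtain ⟨q, hq⟩ := mem_ball.1 hw2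
    have := hf i hi j hj hij (p.append q.reverse)
    rw [Walk.length_append, Walk.length_reverse] at this
    omega
  have h2 : (s.biUnion fun i => ball H (f i)).card ≤ Fintype.card V := card_le_univ _
  have h3 : (s.card : ℝ) * (δ * M) ≤ M := by
    calc (s.card : ℝ) * (δ * M) = ∑ _i ∈ s, (δ * M) := by rw [sum_const, nsmul_eq_mul]
      _ ≤ ∑ i ∈ s, ((ball H (f i)).card : ℝ) := sum_le_sum fun i _ => hb _
      _ = ((s.biUnion fun i => ball H (f i)).card : ℝ) := by rw [h1]; push_cast; rfl
      _ ≤ Fintype.card V := by exact_mod_cast h2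
      _ ≤ M := hV
  rw [le_div_iff₀ hδ]
  have h4 : (s.card : ℝ) * δ * M ≤ 1 * M := by linarith
  exact le_of_mul_le_mul_right h4 hM

/-- few components, of small diameter -/
theorem comps {V : Type} [Fintype V] {H : SimpleGraph V} {M δ : ℝ} (hM : 0 < M) (hδ : 0 < δ)
    (hV : (Fintype.card V : ℝ) ≤ M) (hb : ∀ v, δ * M ≤ (ball H v).card) {k : ℕ} (hk : 5 / δ ≤ k) :
    Nat.card H.ConnectedComponent ≤ k ∧ (∀ c : H.ConnectedComponent, M ≤ k * (c.supp.ncard : ℝ)) ∧
      ∀ a b, H.Reachable a b → H.dist a b ≤ k := by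
  classical
  have hk0 : 1 / δ ≤ k := by
    refine le_trans ?_ hk
    gcongr
    norm_num
  refine ⟨?_, fun c => ?_, fun a b hab => ?_⟩
  · haveI : Fintype H.ConnectedComponent := Fintype.ofFinite _
    have h1 := pack hM hδ hV hb (univ : Finset H.ConnectedComponent) (fun c => c.out) (by
      intro c _ d _ hcd p
      exfalso
      apply hcd
      have h2 := ConnectedComponent.sound p.reachable
      rw [show H.connectedComponentMk c.out = c from Quot.out_eq c,
        show H.connectedComponentMk d.out = d from Quot.out_eq d] at h2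
      exact h2)
    rw [Nat.card_eq_fintype_card, ← card_univ]
    exact_mod_cast h1.trans hk0
  · have h1 : (ball H c.out : Set V) ⊆ c.supp := by
      intro w hw
      obtain ⟨p, -⟩ := mem_ball.1 (mem_coe.1 hw)
      rw [ConnectedComponent.mem_supp_iff]
      have h2 := ConnectedComponent.sound p.reachable
      rw [show H.connectedComponentMk c.out = c from Quot.out_eq c] at h2
      exact h2.symm
    have h2 : (ball H c.out).card ≤ c.supp.ncard := by
      rw [← Set.ncard_coe_finset]
      exact Set.ncard_le_ncard h1 (Set.toFinite _)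
    have h3 := hb c.out
    have h4 : δ * M ≤ c.supp.ncard := h3.trans (by exact_mod_cast h2)
    have h5 : 1 ≤ k * δ := by
      rw [div_le_iff₀ hδ] at hk0
      exact hk0
    calc M = 1 * M := (one_mul M).symm
      _ ≤ k * δ * M := mul_le_mul_of_nonneg_right h5 hM.le
      _ = k * (δ * M) := by ring
      _ ≤ _ := mul_le_mul_of_nonneg_left h4 (Nat.cast_nonneg _)
  · by_contra hlt
    rw [not_le] at hlt
    obtain ⟨m, hm⟩ : ∃ m, m = H.dist a b / 5 := ⟨_, rfl⟩
    have hex : ∀ i, ∃ x : V, i ≤ m → H.Reachable a x ∧ H.dist a x = 5 * i := by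
      intro i
      by_cases hi : i ≤ m
      · obtain ⟨x, hx⟩ := geo hab (5 * i) (by omega)
        exact ⟨x, fun _ => hx⟩
      · exact ⟨a, fun h => absurd h hi⟩
    choose x hx using hex
    have h1 := pack hM hδ hV hb (range (m + 1)) x (by
      intro i hi j hj hij p
      rw [mem_range] at hi hj
      obtain ⟨h2, h3⟩ := hx i (by omega)
      obtain ⟨h4, h5⟩ := hx j (by omega)
      obtain ⟨q, hq⟩ := h2.exists_walk_length_eq_dist
      obtain ⟨r, hr⟩ := h4.exists_walk_length_eq_dist
      have h6 := SimpleGraph.dist_le (q.append p)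
      have h7 := SimpleGraph.dist_le (r.append p.reverse)
      rw [Walk.length_append] at h6 h7
      rw [Walk.length_reverse] at h7
      omega)
    rw [card_range] at h1
    have h2 : 5 * ((m + 1 : ℕ) : ℝ) ≤ 5 / δ := by
      rw [show (5 : ℝ) / δ = 5 * (1 / δ) by ring]
      linarith
    have h3 : 5 * (m + 1) ≤ k := by exact_mod_cast h2.trans hk
    omega

end Pool.Agent.V1153.GG
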