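import Mathlib
import Pool.Agent.V1153.GG.Cnt

/-!
Numbers at which at most four linear forms have no small prime factors.
-/

set_option autoImplicit false

namespace Pool.Agent.V1153.GG

open Finset Pool.Agent.H373R2.T7

/-- `p` divides the value at `m` of one of the forms -/
def QL (L : Finset (ℤ × ℤ)) (p m : ℕ) : Prop := ∃ f ∈ L, (p : ℤ) ∣ f.1 * m + f.2

theorem dvd_mod (a h : ℤ) (p n : ℕ) : (p : ℤ) ∣ a * n + h ↔ (p : ℤ) ∣ a * ((n % p : ℕ) : ℤ) + h := by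
  have h1 : (a * n + h) - (a * ((n % p : ℕ) : ℤ) + h) = (p : ℤ) * (a * ((n / p : ℕ) : ℤ)) := by
    have h2 : (n : ℤ) = p * ((n / p : ℕ) : ℤ) + ((n % p : ℕ) : ℤ) := by
      exact_mod_cast (Nat.div_add_mod n p).symm
    linear_combination a * h2
  constructor
  · intro h3
    have h4 : (p : ℤ) ∣ (a * n + h) - (a * ((n % p : ℕ) : ℤ) + h) := h1 ▸ Dvd.intro _ rfl
    have := Int.dvd_sub h3 h4
    rwa [sub_sub_cancel] at this
  · intro h3
    have h4 : (p : ℤ) ∣ (a * n + h) - (a * ((n % p : ℕ) : ℤ) + h) := h1 ▸ Dvd.intro _ rfl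
    have := Int.dvd_add h3 h4
    rwa [add_sub_cancel] at this

/-- a primitive form has at most one zero modulo `p` -/
theorem root_unique {p : ℕ} (hp : p.Prime) {a h : ℤ} (hah : ¬ ((p : ℤ) ∣ a ∧ (p : ℤ) ∣ h)) {r s : ℕ}
    (hr : r < p) (hs : s < p) (h1 : (p : ℤ) ∣ a * r + h) (h2 : (p : ℤ) ∣ a * s + h) : r = s := by
  have hpi : Prime (p : ℤ) := Nat.prime_iff_prime_int.1 hp
  have h3 : (p : ℤ) ∣ a * ((r : ℤ) - s) := by
    have := Int.dvd_sub h1 h2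
    have h4 : a * (r : ℤ) + h - (a * s + h) = a * ((r : ℤ) - s) := by ring
    rwa [h4] at this
  rcases hpi.dvd_or_dvd h3 with h4 | h4
  · exfalso
    apply hah
    refine ⟨h4, ?_⟩
    have := Int.dvd_sub h1 (Dvd.dvd.mul_right h4 (r : ℤ))
    rwa [add_sub_cancel_left] at this
  · have h5 : (r : ℤ) - s = 0 := by
      apply Int.eq_zero_of_abs_lt_dvd h4
      rw [abs_lt]
      constructor <;> omega
    omega

open Classical in
theorem nuB_le_card (L : Finset (ℤ × ℤ)) {p : ℕ} (hp : p.Prime)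
    (hL : ∀ f ∈ L, ¬ ((p : ℤ) ∣ f.1 ∧ (p : ℤ) ∣ f.2)) : nuB (QL L) p ≤ L.card := by
  unfold nuB
  have hex : ∀ r ∈ (range p).filter (fun r => QL L p r), ∃ f ∈ L, (p : ℤ) ∣ f.1 * r + f.2 :=
    fun r hr => (mem_filter.1 hr).2
  choose! g hg1 hg2 using hex
  apply card_le_card_of_injOn g
  · intro r hr
    exact hg1 r (mem_coe.1 hr)
  · intro r hr s hs hrs
    have h1 := hg2 r (mem_coe.1 hr)
    have h2 := hg2 s (mem_coe.1 hs)
    rw [← hrs] at h2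
    exact root_unique hp (hL _ (hg1 r (mem_coe.1 hr))) (mem_range.1 (mem_filter.1 (mem_coe.1 hr)).1)
      (mem_range.1 (mem_filter.1 (mem_coe.1 hs)).1) h1 h2

open Classical in
/-- At least seven integers `m` such that none of the values at `m` of at most four primitive forms
has a prime factor up to `y`. -/
theorem forms_many : ∃ K N : ℕ, 1 ≤ K ∧ ∀ n : ℕ, N ≤ n → ∀ y : ℕ, y ^ K ≤ n →
    ∀ L : Finset (ℤ × ℤ), L.card ≤ 4 → (∀ f ∈ L, IsCoprime f.1 f.2) →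
      (∃ r : ℕ, ∀ f ∈ L, ¬ (2 : ℤ) ∣ f.1 * r + f.2) → (∃ r : ℕ, ∀ f ∈ L, ¬ (3 : ℤ) ∣ f.1 * r + f.2) →
      7 ≤ ((Icc 1 (n - 3)).filter (fun m : ℕ => ∀ p, p.Prime → p ≤ y →
        ∀ f ∈ L, ¬ (p : ℤ) ∣ f.1 * m + f.2)).card := by
  obtain ⟨K, N, hK, hN⟩ := count_many 4 (by norm_num)
  refine ⟨K, N, hK, fun n hn y hy L hL hco h2 h3 => ?_⟩
  have hprim : ∀ p : ℕ, p.Prime → ∀ f ∈ L, ¬ ((p : ℤ) ∣ f.1 ∧ (p : ℤ) ∣ f.2) := by
    intro p hp f hf h
    have := (hco f hf).isUnit_of_dvd' h.1 h.2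
    exact (Nat.prime_iff_prime_int.1 hp).not_isUnit this
  have hper : PerB (QL L) 4 := by
    refine ⟨fun p n => ?_, fun p hp => (nuB_le_card L hp (hprim p hp)).trans hL⟩
    unfold QL
    refine exists_congr fun f => and_congr_right fun _ => dvd_mod _ _ _ _
  have had : ∀ p, p.Prime → nuB (QL L) p < p := by
    intro p hp
    have hcase : ∀ q : ℕ, q.Prime → (∃ r : ℕ, ∀ f ∈ L, ¬ (q : ℤ) ∣ f.1 * r + f.2) → nuB (QL L) q < q := by
      intro q hq hr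
      obtain ⟨r, hr⟩ := hr
      unfold nuB
      calc ((range q).filter (fun r => QL L q r)).card < (range q).card := by
            apply card_lt_card
            rw [filter_ssubset]
            refine ⟨r % q, mem_range.2 (Nat.mod_lt _ hq.pos), ?_⟩
            rintro ⟨f, hf, hd⟩
            exact hr f hf ((dvd_mod _ _ _ _).2 hd)
        _ = q := card_range _
    rcases le_or_gt p 4 with hp4 | hp4
    · have h5 := hp.two_le
      interval_cases p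
      · exact hcase 2 hp (by exact_mod_cast h2)
      · exact hcase 3 hp (by exact_mod_cast h3)
      · exact absurd hp (by norm_num)
    · exact lt_of_le_of_lt ((nuB_le_card L hp (hprim p hp)).trans hL) hp4
  refine (hN n hn y hy (QL L) hper had).trans (card_le_card ?_)
  intro m hm
  rw [mem_filter] at hm ⊢
  refine ⟨hm.1, fun p hp hpy f hf hd => ?_⟩
  exact hm.2 p (mem_pz.2 ⟨hpy, hp⟩) ⟨f, hf, hd⟩

/-- `m` is odd and less than `2 n`, and a prime or larger than `1` without prime factors up to `y` -/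
def Adm (n y m : ℕ) : Prop :=
  Odd m ∧ m < 2 * n ∧ (m.Prime ∨ 1 < m ∧ ∀ p : ℕ, p.Prime → p ∣ m → y < p)

theorem adm_of {n y m : ℕ} (hy : 2 ≤ y) (hm : m < 2 * n) (h1 : m ≠ 1)
    (h : ∀ p : ℕ, p.Prime → p ≤ y → ¬ p ∣ m) : Adm n y m := by
  have h2 : ¬ 2 ∣ m := h 2 Nat.prime_two hy
  have ho : Odd m := Nat.odd_iff.2 (by omega)
  have hm0 : m ≠ 0 := by
    rintro rfl
    exact h2 (dvd_zero _)
  refine ⟨ho, hm, Or.inr ⟨by omega, fun p hp hpm => ?_⟩⟩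
  by_contra hpy
  exact h p hp (not_lt.1 hpy) hpm

theorem three_iff {a b : ℕ} (h1 : ¬ 3 ∣ a + b) (h2 : ¬ 3 ∣ ((a : ℤ) - b).natAbs) :
    3 ∣ b ↔ ¬ 3 ∣ a := by
  have h3 : ¬ (3 : ℤ) ∣ (a : ℤ) - b := fun h => h2 (Int.natCast_dvd.1 (by exact_mod_cast h))
  clear h2
  have ha : a % 3 = 0 ∨ a % 3 = 1 ∨ a % 3 = 2 := by omega
  have hb : b % 3 = 0 ∨ b % 3 = 1 ∨ b % 3 = 2 := by omega
  rcases ha with ha | ha | ha <;> rcases hb with hb | hb | hb <;> omega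

theorem four_card {α : Type} [DecidableEq α] (a b c d : α) : ({a, b, c, d} : Finset α).card ≤ 4 :=
  (card_insert_le _ _).trans (Nat.succ_le_succ ((card_insert_le _ _).trans
    (Nat.succ_le_succ ((card_insert_le _ _).trans (by simp)))))

theorem six_card {α : Type} [DecidableEq α] (a b c d e f : α) :
    ({a, b, c, d, e, f} : Finset α).card ≤ 6 :=
  (card_insert_le _ _).trans (Nat.succ_le_succ ((card_insert_le _ _).trans
    (Nat.succ_le_succ (four_card _ _ _ _))))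

/-- the system of forms for two vertices -/
def Lc (a c : ℕ) : Finset (ℤ × ℤ) := {((1 : ℤ), (a : ℤ)), (1, -(a : ℤ)), (1, (c : ℤ)), (1, -(c : ℤ))}

theorem Lc_iff (a c : ℕ) (P : ℤ × ℤ → Prop) : (∀ f ∈ Lc a c, P f) ↔
    P (1, (a : ℤ)) ∧ P (1, -(a : ℤ)) ∧ P (1, (c : ℤ)) ∧ P (1, -(c : ℤ)) := by
  simp [Lc]

/-- the system of forms for an exceptional edge -/
def Le (a : ℕ) : Finset (ℤ × ℤ) := {((1 : ℤ), (a : ℤ)), (1, -(a : ℤ)), (2, 3)}

theorem Le_iff (a : ℕ) (P : ℤ × ℤ → Prop) : (∀ f ∈ Le a, P f) ↔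
    P (1, (a : ℤ)) ∧ P (1, -(a : ℤ)) ∧ P (2, 3) := by
  simp [Le]

theorem nd_add {p a b : ℕ} (h : ¬ (p : ℤ) ∣ 1 * (b : ℤ) + a) : ¬ p ∣ a + b := by
  intro h1
  apply h
  have : (p : ℤ) ∣ ((a + b : ℕ) : ℤ) := by exact_mod_cast h1
  rw [one_mul, add_comm]
  exact_mod_cast this

theorem nd_sub {p a b : ℕ} (h : ¬ (p : ℤ) ∣ 1 * (b : ℤ) + -(a : ℤ)) : ¬ p ∣ ((a : ℤ) - b).natAbs := by
  intro h1
  apply h
  have h2 : (p : ℤ) ∣ ((a : ℤ) - b) := Int.natCast_dvd.2 h1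
  have h3 := (dvd_neg).2 h2
  have h6 : 1 * (b : ℤ) + -(a : ℤ) = -((a : ℤ) - b) := by ring
  rwa [h6]

/-- the common neighbours -/
theorem common : ∃ K N : ℕ, 1 ≤ K ∧ ∀ n : ℕ, N ≤ n → ∀ y : ℕ, 2 ≤ y → y ^ K ≤ n →
    ∀ a c : ℕ, a ≤ n → c ≤ n → a % 2 = c % 2 → (3 ∣ a ↔ 3 ∣ c) →
      ∃ b : ℕ, 1 ≤ b ∧ b + 3 ≤ n ∧ b % 2 ≠ a % 2 ∧ (3 ∣ b ↔ ¬ 3 ∣ a) ∧
        Adm n y (a + b) ∧ Adm n y ((a : ℤ) - b).natAbs ∧
        Adm n y (c + b) ∧ Adm n y ((c : ℤ) - b).natAbs := by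
  classical
  obtain ⟨K, N, hK, hN⟩ := forms_many
  refine ⟨K, max N (max 4 (3 ^ K)), hK, fun n hn y hy2 hy a c ha hc hac h3 => ?_⟩
  have hn4 : 4 ≤ n := ((le_max_left _ _).trans (le_max_right _ _)).trans hn
  have hn3 : 3 ^ K ≤ n := ((le_max_right _ _).trans (le_max_right _ _)).trans hn
  have hnN : N ≤ n := (le_max_left _ _).trans hn
  clear hn
  obtain ⟨z, hz⟩ : ∃ z, z = max y 3 := ⟨_, rfl⟩
  have hzK : z ^ K ≤ n := by
    rcases le_total y 3 with h | h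
    · rw [hz, max_eq_right h]
      exact hn3
    · rw [hz, max_eq_left h]
      exact hy
  have hyz : y ≤ z := hz ▸ le_max_left _ _
  have hz3 : 3 ≤ z := hz ▸ le_max_right _ _
  have h7 := hN n hnN z hzK (Lc a c) (four_card _ _ _ _)
    ((Lc_iff a c _).2 ⟨isCoprime_one_left, isCoprime_one_left, isCoprime_one_left,
      isCoprime_one_left⟩)
    ⟨a + 1, (Lc_iff a c _).2 ⟨by dsimp only; push_cast; omega, by dsimp only; push_cast; omega,
      by dsimp only; push_cast; omega, by dsimp only; push_cast; omega⟩⟩ (by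
      by_cases h : 3 ∣ a
      · have h' := h3.1 h
        exact ⟨1, (Lc_iff a c _).2 ⟨by dsimp only; push_cast; omega, by dsimp only; push_cast; omega,
          by dsimp only; push_cast; omega, by dsimp only; push_cast; omega⟩⟩
      · have h' : ¬ 3 ∣ c := fun h'' => h (h3.2 h'')
        exact ⟨0, (Lc_iff a c _).2 ⟨by dsimp only; push_cast; omega, by dsimp only; push_cast; omega,
          by dsimp only; push_cast; omega, by dsimp only; push_cast; omega⟩⟩)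
  obtain ⟨b, hb, hbB⟩ := exists_mem_notMem_of_card_lt_card
    (lt_of_le_of_lt (six_card (a + 1) (a - 1) (1 - a) (c + 1) (c - 1) (1 - c))
      (lt_of_lt_of_le (by norm_num) h7))
  rw [mem_filter, mem_Icc] at hb
  obtain ⟨⟨hb1, hb2⟩, hb3⟩ := hb
  simp only [mem_insert, mem_singleton, not_or] at hbB
  obtain ⟨e1, e2, e3, e4, e5, e6⟩ := hbB
  have hbn : b + 3 ≤ n := by omega
  have f1 : a + b ≠ 1 := by omega
  have f2 : ((a : ℤ) - b).natAbs ≠ 1 := by omega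
  have f3 : c + b ≠ 1 := by omega
  have f4 : ((c : ℤ) - b).natAbs ≠ 1 := by omega
  have g1 : a + b < 2 * n := by omega
  have g2 : ((a : ℤ) - b).natAbs < 2 * n := by omega
  have g3 : c + b < 2 * n := by omega
  have g4 : ((c : ℤ) - b).natAbs < 2 * n := by omega
  have key : ∀ p : ℕ, p.Prime → p ≤ z → ¬ p ∣ a + b ∧ ¬ p ∣ ((a : ℤ) - b).natAbs ∧ ¬ p ∣ c + b ∧
      ¬ p ∣ ((c : ℤ) - b).natAbs := by
    intro p hp hpy
    obtain ⟨k1, k2, k3, k4⟩ := (Lc_iff a c _).1 (hb3 p hp hpy)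
    exact ⟨nd_add k1, nd_sub k2, nd_add k3, nd_sub k4⟩
  have k2 := (key 2 Nat.prime_two (by omega)).1
  have t1 : b % 2 ≠ a % 2 := by
    clear e1 e2 e3 e4 e5 e6 f1 f2 f3 f4 g1 g2 g3 g4 h3
    omega
  have t2 : 3 ∣ b ↔ ¬ 3 ∣ a := three_iff (key 3 Nat.prime_three hz3).1 (key 3 Nat.prime_three hz3).2.1
  exact ⟨b, hb1, hbn, t1, t2,
    adm_of hy2 g1 f1 fun p hp hpy => (key p hp (hpy.trans hyz)).1,
    adm_of hy2 g2 f2 fun p hp hpy => (key p hp (hpy.trans hyz)).2.1,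
    adm_of hy2 g3 f3 fun p hp hpy => (key p hp (hpy.trans hyz)).2.2.1,
    adm_of hy2 g4 f4 fun p hp hpy => (key p hp (hpy.trans hyz)).2.2.2⟩

/-- the exceptional edges -/
theorem exc : ∃ K N : ℕ, 1 ≤ K ∧ ∀ n : ℕ, N ≤ n → ∀ y : ℕ, 2 ≤ y → y ^ K ≤ n →
    ∀ a : ℕ, a ≤ n → 3 ∣ a →
      ∃ b : ℕ, 1 ≤ b ∧ b + 3 ≤ n ∧ ¬ 3 ∣ b ∧ b % 2 ≠ a % 2 ∧ Adm n y (a + b) ∧
        Adm n y ((a : ℤ) - b).natAbs ∧ Adm n y (2 * b + 3) := by
  classical
  obtain ⟨K, N, hK, hN⟩ := forms_many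
  refine ⟨K, max N (max 4 (3 ^ K)), hK, fun n hn y hy2 hy a ha h3 => ?_⟩
  have hn4 : 4 ≤ n := ((le_max_left _ _).trans (le_max_right _ _)).trans hn
  have hn3 : 3 ^ K ≤ n := ((le_max_right _ _).trans (le_max_right _ _)).trans hn
  have hnN : N ≤ n := (le_max_left _ _).trans hn
  clear hn
  obtain ⟨z, hz⟩ : ∃ z, z = max y 3 := ⟨_, rfl⟩
  have hzK : z ^ K ≤ n := by
    rcases le_total y 3 with h | h
    · rw [hz, max_eq_right h]
      exact hn3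
    · rw [hz, max_eq_left h]
      exact hy
  have hyz : y ≤ z := hz ▸ le_max_left _ _
  have hz3 : 3 ≤ z := hz ▸ le_max_right _ _
  have h7 := hN n hnN z hzK (Le a)
    ((card_insert_le _ _).trans (Nat.succ_le_succ ((card_insert_le _ _).trans
        (Nat.succ_le_succ (by simp)))))
    ((Le_iff a _).2 ⟨isCoprime_one_left, isCoprime_one_left, ⟨-1, 1, by norm_num⟩⟩)
    ⟨a + 1, (Le_iff a _).2 ⟨by dsimp only; push_cast; omega, by dsimp only; push_cast; omega,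
      by dsimp only; push_cast; omega⟩⟩
    ⟨1, (Le_iff a _).2 ⟨by dsimp only; push_cast; omega, by dsimp only; push_cast; omega,
      by dsimp only; push_cast; norm_num⟩⟩
  obtain ⟨b, hb, hbB⟩ := exists_mem_notMem_of_card_lt_card
    (lt_of_le_of_lt (six_card (a + 1) (a - 1) (1 - a) (a + 1) (a - 1) (1 - a))
      (lt_of_lt_of_le (by norm_num) h7))
  rw [mem_filter, mem_Icc] at hb
  obtain ⟨⟨hb1, hb2⟩, hb3⟩ := hb
  simp only [mem_insert, mem_singleton, not_or] at hbB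
  obtain ⟨e1, e2, e3, -, -, -⟩ := hbB
  have hbn : b + 3 ≤ n := by omega
  have f1 : a + b ≠ 1 := by omega
  have f2 : ((a : ℤ) - b).natAbs ≠ 1 := by omega
  have g1 : a + b < 2 * n := by omega
  have g2 : ((a : ℤ) - b).natAbs < 2 * n := by omega
  have key : ∀ p : ℕ, p.Prime → p ≤ z → ¬ p ∣ a + b ∧ ¬ p ∣ ((a : ℤ) - b).natAbs ∧ ¬ p ∣ 2 * b + 3 := by
    intro p hp hpy
    obtain ⟨k1, k2, k3⟩ := (Le_iff a _).1 (hb3 p hp hpy)
    refine ⟨nd_add k1, nd_sub k2, fun h => k3 ?_⟩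
    have : (p : ℤ) ∣ ((2 * b + 3 : ℕ) : ℤ) := by exact_mod_cast h
    change (p : ℤ) ∣ 2 * (b : ℤ) + 3
    exact_mod_cast this
  have k2 := (key 2 Nat.prime_two (by omega)).1
  have k3 := (key 3 Nat.prime_three hz3).1
  have t1 : ¬ 3 ∣ b := fun h => k3 (dvd_add h3 h)
  have t2 : b % 2 ≠ a % 2 := by
    clear e1 e2 e3 f1 f2 g1 g2 h3 k3 t1
    omega
  exact ⟨b, hb1, hbn, t1, t2,
    adm_of hy2 g1 f1 fun p hp hpy => (key p hp (hpy.trans hyz)).1,
    adm_of hy2 g2 f2 fun p hp hpy => (key p hp (hpy.trans hyz)).2.1,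
    adm_of hy2 (by omega) (by omega) fun p hp hpy => (key p hp (hpy.trans hyz)).2.2⟩

end Pool.Agent.V1153.GG
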