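import Mathlib

/-!
The function `ρ(m) = m / φ(m) = ∏_{p ∣ m} (1 - 1 / p)⁻¹` and the averages of its powers.
-/

set_option autoImplicit false

namespace Pool.Agent.V1153.GG

open Finset

/-- the factor `(1 - 1 / p)⁻¹` -/
noncomputable def fp (p : ℕ) : ℝ := (1 - 1 / (p : ℝ))⁻¹

/-- `ρ(m)` is the product of the `(1 - 1 / p)⁻¹` over the prime factors of `m` -/
noncomputable def rho (m : ℕ) : ℝ := ∏ p ∈ m.primeFactors, fp p

theorem base_pos {p : ℕ} (hp : 2 ≤ p) : 0 < 1 - 1 / (p : ℝ) := by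
  have h : (2 : ℝ) ≤ p := by exact_mod_cast hp
  have : 1 / (p : ℝ) ≤ 1 / 2 := one_div_le_one_div_of_le (by norm_num) h
  linarith

theorem one_le_fp {p : ℕ} (hp : 2 ≤ p) : 1 ≤ fp p := by
  unfold fp
  rw [one_le_inv₀ (base_pos hp)]
  have : 0 ≤ 1 / (p : ℝ) := by positivity
  linarith

theorem fp_le {p : ℕ} (hp : 2 ≤ p) : fp p ≤ 1 + 2 / (p : ℝ) := by
  have h : (2 : ℝ) ≤ p := by exact_mod_cast hp
  unfold fp
  rw [inv_le_iff_one_le_mul₀ (base_pos hp)]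
  have h1 : 0 < 1 / (p : ℝ) := by positivity
  have h2 : 1 / (p : ℝ) ≤ 1 / 2 := one_div_le_one_div_of_le (by norm_num) h
  have h3 : 2 / (p : ℝ) = 2 * (1 / p) := by ring
  rw [h3]
  nlinarith

theorem one_le_rho (m : ℕ) : 1 ≤ rho m := by
  unfold rho
  calc (1 : ℝ) = ∏ _p ∈ m.primeFactors, (1 : ℝ) := by simp
    _ ≤ _ := prod_le_prod (fun _ _ => zero_le_one) fun p hp =>
      one_le_fp (Nat.prime_of_mem_primeFactors hp).two_le

theorem one_add_pow_le {t : ℝ} (h0 : 0 ≤ t) (h1 : t ≤ 1) (k : ℕ) :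
    (1 + t) ^ k ≤ 1 + (2 ^ k - 1) * t := by
  induction k with
  | zero => simp
  | succ k ih =>
    have h2 : (1 : ℝ) ≤ 2 ^ k := one_le_pow₀ (by norm_num)
    rw [pow_succ]
    calc (1 + t) ^ k * (1 + t) ≤ (1 + (2 ^ k - 1) * t) * (1 + t) :=
          mul_le_mul_of_nonneg_right ih (by linarith)
      _ ≤ 1 + (2 ^ (k + 1) - 1) * t := by
          rw [pow_succ]
          nlinarith [mul_nonneg (sub_nonneg.2 h2) (mul_nonneg h0 (sub_nonneg.2 h1))]

theorem fp_pow_le {p : ℕ} (hp : 2 ≤ p) (k : ℕ) : fp p ^ k ≤ 1 + (2 * (2 ^ k - 1)) / (p : ℝ) := by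
  have h : (2 : ℝ) ≤ p := by exact_mod_cast hp
  have h1 : 0 ≤ 2 / (p : ℝ) := by positivity
  have h2 : 2 / (p : ℝ) ≤ 1 := by
    rw [div_le_one (by linarith)]
    exact h
  calc fp p ^ k ≤ (1 + 2 / (p : ℝ)) ^ k :=
        pow_le_pow_left₀ (by linarith [one_le_fp hp]) (fp_le hp) _
    _ ≤ 1 + (2 ^ k - 1) * (2 / (p : ℝ)) := one_add_pow_le h1 h2 k
    _ = _ := by ring

theorem sum_inv_sq (A : ℕ) : ∑ p ∈ Icc 1 A, 1 / (p : ℝ) ^ 2 ≤ 2 := by
  have h : ∀ A : ℕ, 1 ≤ A → ∑ p ∈ Icc 1 A, 1 / (p : ℝ) ^ 2 ≤ 2 - 1 / (A : ℝ) := by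
    intro A hA
    induction A, hA using Nat.le_induction with
    | base => norm_num
    | succ A hA ih =>
      rw [sum_Icc_succ_top (by omega)]
      have hA' : (1 : ℝ) ≤ A := by exact_mod_cast hA
      have h1 : 1 / ((A + 1 : ℕ) : ℝ) ^ 2 ≤ 1 / (A : ℝ) - 1 / ((A + 1 : ℕ) : ℝ) := by
        push_cast
        rw [div_sub_div _ _ (by positivity) (by positivity), div_le_div_iff₀ (by positivity) (by positivity)]
        nlinarith
      linarith
  rcases Nat.eq_zero_or_pos A with rfl | hA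
  · simp
  · have := h A hA
    have h0 : 0 ≤ 1 / (A : ℝ) := by positivity
    linarith

theorem prod_sq_le (c : ℝ) (hc : 0 ≤ c) (A : ℕ) (P : Finset ℕ) (hP : P ⊆ Icc 1 A) :
    ∏ p ∈ P, (1 + c / (p : ℝ) ^ 2) ≤ Real.exp (2 * c) := by
  calc ∏ p ∈ P, (1 + c / (p : ℝ) ^ 2) ≤ ∏ p ∈ P, Real.exp (c / (p : ℝ) ^ 2) := by
        refine prod_le_prod (fun p _ => by positivity) fun p _ => ?_
        have := Real.add_one_le_exp (c / (p : ℝ) ^ 2)
        linarith
    _ = Real.exp (∑ p ∈ P, c / (p : ℝ) ^ 2) := (Real.exp_sum _ _).symm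
    _ ≤ Real.exp (2 * c) := by
        apply Real.exp_le_exp.mpr
        calc ∑ p ∈ P, c / (p : ℝ) ^ 2 ≤ ∑ p ∈ Icc 1 A, c / (p : ℝ) ^ 2 :=
              sum_le_sum_of_subset_of_nonneg hP fun _ _ _ => by positivity
          _ = c * ∑ p ∈ Icc 1 A, 1 / (p : ℝ) ^ 2 := by
              rw [mul_sum]
              refine sum_congr rfl fun p _ => by ring
          _ ≤ c * 2 := mul_le_mul_of_nonneg_left (sum_inv_sq A) hc
          _ = 2 * c := by ring

/-- the average of a multiplicative function near one -/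
theorem all_avg (c : ℝ) (hc : 0 ≤ c) (A : ℕ) :
    ∑ a ∈ Icc 1 A, ∏ p ∈ a.primeFactors, (1 + c / (p : ℝ)) ≤ Real.exp (2 * c) * A := by
  classical
  set P : Finset ℕ := (Icc 1 A).filter Nat.Prime with hP
  have h1 : ∀ a ∈ Icc 1 A, ∏ p ∈ a.primeFactors, (1 + c / (p : ℝ)) =
      ∑ T ∈ P.powerset, if T ⊆ a.primeFactors then ∏ p ∈ T, (c / (p : ℝ)) else 0 := by
    intro a ha
    rw [prod_one_add, ← sum_filter]
    refine sum_congr ?_ fun _ _ => rfl
    ext T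
    simp only [mem_powerset, mem_filter]
    constructor
    · intro h
      refine ⟨fun p hp => ?_, h⟩
      have hpa := h hp
      rw [Nat.mem_primeFactors] at hpa
      rw [hP, mem_filter, mem_Icc]
      rw [mem_Icc] at ha
      exact ⟨⟨hpa.1.one_le, (Nat.le_of_dvd (by omega) hpa.2.1).trans ha.2⟩, hpa.1⟩
    · exact fun h => h.2
  rw [sum_congr rfl h1, sum_comm]
  have h2 : ∀ T ∈ P.powerset, ∑ a ∈ Icc 1 A,
      (if T ⊆ a.primeFactors then ∏ p ∈ T, (c / (p : ℝ)) else 0) ≤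
      (A : ℝ) * ∏ p ∈ T, (c / (p : ℝ) ^ 2) := by
    intro T hT
    rw [mem_powerset] at hT
    have hTp : ∀ p ∈ T, p.Prime := fun p hp => (mem_filter.mp (hT hp)).2
    have hd1 : 1 ≤ ∏ p ∈ T, p := one_le_prod' fun p hp => (hTp p hp).one_le
    rw [← sum_filter, sum_const, nsmul_eq_mul]
    have hsub : (Icc 1 A).filter (fun a => T ⊆ a.primeFactors) ⊆
        (Ioc 0 A).filter (fun a => (∏ p ∈ T, p) ∣ a) := by
      intro a ha
      rw [mem_filter, mem_Icc] at ha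
      rw [mem_filter, mem_Ioc]
      refine ⟨⟨by omega, ha.1.2⟩, ?_⟩
      refine prod_primes_dvd a (fun p hp => (hTp p hp).prime) fun p hp => ?_
      exact Nat.dvd_of_mem_primeFactors (ha.2 hp)
    have hs : ((((Icc 1 A).filter (fun a => T ⊆ a.primeFactors)).card : ℕ) : ℝ) ≤
        (A : ℝ) * (1 / ((∏ p ∈ T, p : ℕ) : ℝ)) := by
      have e1 := card_le_card hsub
      rw [Nat.Ioc_filter_dvd_card_eq_div] at e1
      calc _ ≤ ((A / ∏ p ∈ T, p : ℕ) : ℝ) := by exact_mod_cast e1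
        _ ≤ (A : ℝ) / ((∏ p ∈ T, p : ℕ) : ℝ) := Nat.cast_div_le
        _ = _ := by ring
    have hprod : (∏ p ∈ T, (c / (p : ℝ) ^ 2)) =
        (1 / ((∏ p ∈ T, p : ℕ) : ℝ)) * ∏ p ∈ T, (c / (p : ℝ)) := by
      push_cast
      rw [one_div, ← prod_inv_distrib, ← prod_mul_distrib]
      refine prod_congr rfl fun p hp => ?_
      have : (p : ℝ) ≠ 0 := by exact_mod_cast (hTp p hp).ne_zero
      field_simp
    rw [hprod]
    have hnn : 0 ≤ ∏ p ∈ T, (c / (p : ℝ)) := prod_nonneg fun p _ => by positivity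
    calc _ ≤ ((A : ℝ) * (1 / ((∏ p ∈ T, p : ℕ) : ℝ))) * ∏ p ∈ T, (c / (p : ℝ)) :=
          mul_le_mul_of_nonneg_right hs hnn
      _ = _ := by ring
  refine (sum_le_sum h2).trans ?_
  rw [← mul_sum, ← prod_one_add]
  have h3 := prod_sq_le c hc A P (filter_subset _ _)
  calc _ ≤ (A : ℝ) * Real.exp (2 * c) := mul_le_mul_of_nonneg_left h3 (by positivity)
    _ = _ := by ring

/-- the averages of the powers of `ρ` -/
theorem rho_avg (k : ℕ) : ∃ C : ℝ, 0 < C ∧ ∀ A : ℕ, ∑ a ∈ Icc 1 A, rho a ^ k ≤ C * A := by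
  have hk : (1 : ℝ) ≤ 2 ^ k := one_le_pow₀ (by norm_num)
  refine ⟨Real.exp (2 * (2 * (2 ^ k - 1))), Real.exp_pos _, fun A => ?_⟩
  refine le_trans (sum_le_sum fun a _ => ?_) (all_avg (2 * (2 ^ k - 1)) (by linarith) A)
  unfold rho
  rw [← prod_pow]
  refine prod_le_prod (fun p hp => ?_) fun p hp => ?_
  · exact pow_nonneg (by linarith [one_le_fp (Nat.prime_of_mem_primeFactors hp).two_le]) _
  · exact fp_pow_le (Nat.prime_of_mem_primeFactors hp).two_le k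

/-- products over a part of the prime factors -/
theorem part_le {P : Finset ℕ} (hP : ∀ p ∈ P, p.Prime) {m : ℕ} (hm : m ≠ 0) (k : ℕ) :
    ∏ p ∈ P, (if p ∣ m then fp p ^ k else 1) ≤ rho m ^ k := by
  classical
  rw [← prod_filter]
  unfold rho
  rw [← prod_pow]
  have hsub : P.filter (fun p => p ∣ m) ⊆ m.primeFactors := by
    intro p hp
    rw [mem_filter] at hp
    exact Nat.mem_primeFactors.2 ⟨hP p hp.1, hp.2, hm⟩
  rw [← prod_sdiff hsub]
  have h1 : 1 ≤ ∏ p ∈ m.primeFactors \ P.filter (fun p => p ∣ m), fp p ^ k := by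
    calc (1 : ℝ) = ∏ _p ∈ m.primeFactors \ P.filter (fun p => p ∣ m), (1 : ℝ) := by simp
      _ ≤ _ := prod_le_prod (fun _ _ => zero_le_one) fun p hp =>
        one_le_pow₀ (one_le_fp (Nat.prime_of_mem_primeFactors (mem_sdiff.1 hp).1).two_le)
  have h2 : 0 ≤ ∏ p ∈ P.filter (fun p => p ∣ m), fp p ^ k := prod_nonneg fun p hp => by
    rw [mem_filter] at hp
    exact pow_nonneg (by linarith [one_le_fp (hP p hp.1).two_le]) _
  exact le_mul_of_one_le_left h2 h1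

end Pool.Agent.V1153.GG
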