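import Mathlib
import Pool.Agent.V1153.GG.Frm
import Pool.Agent.V1153.GG.Rho

/-!
The number of classes modulo `p` for the common neighbours of two vertices.
-/

set_option autoImplicit false

namespace Pool.Agent.V1153.GG

open Finset Pool.Agent.H373R2.T7

open Classical in
theorem card_le_nu (a c : ℕ) {p : ℕ} (hp : p.Prime) :
    ({(a : ZMod p), -(a : ZMod p), (c : ZMod p), -(c : ZMod p)} : Finset (ZMod p)).card ≤
      nuB (QL (Lc a c)) p := by
  have : NeZero p := ⟨hp.ne_zero⟩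
  unfold nuB
  apply card_le_card_of_injOn (fun x : ZMod p => x.val)
  · intro x hx
    have hx' : x = (a : ZMod p) ∨ x = -(a : ZMod p) ∨ x = (c : ZMod p) ∨ x = -(c : ZMod p) := by
      simpa using hx
    rw [mem_coe, mem_filter, mem_range]
    refine ⟨ZMod.val_lt x, ?_⟩
    have key : ∀ h : ℤ, x = -((h : ℤ) : ZMod p) → (p : ℤ) ∣ 1 * ((x.val : ℕ) : ℤ) + h := by
      intro h hx
      rw [← ZMod.intCast_zmod_eq_zero_iff_dvd]
      push_cast
      rw [ZMod.natCast_zmod_val, hx]
      ring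
    rcases hx' with h | h | h | h
    · exact ⟨(1, -(a : ℤ)), by simp [Lc], key _ (by rw [h]; push_cast; ring)⟩
    · exact ⟨(1, (a : ℤ)), by simp [Lc], key _ (by rw [h]; push_cast; ring)⟩
    · exact ⟨(1, -(c : ℤ)), by simp [Lc], key _ (by rw [h]; push_cast; ring)⟩
    · exact ⟨(1, (c : ℤ)), by simp [Lc], key _ (by rw [h]; push_cast; ring)⟩
  · intro x _ y _ hxy
    exact ZMod.val_injective p hxy

/-- the number of elements of `{a, -a, c, -c}` -/
theorem card_four {F : Type} [Field F] [DecidableEq F] (h2 : (2 : F) ≠ 0) (a c : F) :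
    1 ≤ ({a, -a, c, -c} : Finset F).card ∧
    (a ≠ 0 → 2 ≤ ({a, -a, c, -c} : Finset F).card) ∧
    (a = 0 → c ≠ 0 → 3 ≤ ({a, -a, c, -c} : Finset F).card) ∧
    (a ≠ 0 → c ≠ 0 → a ≠ c → a ≠ -c → 4 ≤ ({a, -a, c, -c} : Finset F).card) := by
  have hn : ∀ x : F, x ≠ 0 → x ≠ -x := by
    intro x hx h
    have h3 : 2 * x = 0 := by linear_combination h
    rcases mul_eq_zero.1 h3 with h4 | h4
    · exact h2 h4
    · exact hx h4
  refine ⟨card_pos.2 ⟨a, by simp⟩, fun ha => ?_, fun ha hc => ?_, fun ha hc h1 h3 => ?_⟩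
  · calc 2 = ({a, -a} : Finset F).card := (card_pair (hn a ha)).symm
      _ ≤ _ := card_le_card (by
        intro x hx
        simp only [mem_insert, mem_singleton] at hx ⊢
        tauto)
  · subst ha
    calc 3 = ({0, c, -c} : Finset F).card := by
          rw [card_insert_of_notMem, card_pair (hn c hc)]
          simp only [mem_insert, mem_singleton, not_or]
          exact ⟨hc.symm, fun h => hc (neg_eq_zero.1 h.symm)⟩
      _ ≤ _ := card_le_card (by
        intro x hx
        simp only [mem_insert, mem_singleton, neg_zero] at hx ⊢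
        tauto)
  · rw [card_insert_of_notMem, card_insert_of_notMem, card_pair (hn c hc)]
    · simp only [mem_insert, mem_singleton, not_or]
      refine ⟨fun h => h3 (by rw [← h, neg_neg]), fun h => h1 (neg_injective h)⟩
    · simp only [mem_insert, mem_singleton, not_or]
      exact ⟨hn a ha, h1, h3⟩

theorem natAbs_dvd_iff {p a c : ℕ} :
    p ∣ ((c : ℤ) - a).natAbs ↔ ((c : ℕ) : ZMod p) = (a : ZMod p) := by
  rw [← Int.natCast_dvd, ← ZMod.intCast_zmod_eq_zero_iff_dvd]
  push_cast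
  exact sub_eq_zero

theorem add_dvd_iff {p a c : ℕ} : p ∣ c + a ↔ ((c : ℕ) : ZMod p) = -(a : ZMod p) := by
  rw [← ZMod.natCast_eq_zero_iff, eq_neg_iff_add_eq_zero]
  push_cast
  rfl

/-- the factor for the prime divisors of `m` -/
noncomputable def ft (m k p : ℕ) : ℝ := if p ∣ m then fp p ^ k else 1

theorem one_le_ft {m k p : ℕ} (hp : p.Prime) : 1 ≤ ft m k p := by
  unfold ft
  split_ifs
  · exact one_le_pow₀ (one_le_fp hp.two_le)
  · exact le_rfl

/-- the local factor at an odd prime -/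
theorem local_le (a c : ℕ) {p : ℕ} (hp : p.Prime) (hp2 : p ≠ 2) :
    1 - (nuB (QL (Lc a c)) p : ℝ) / p ≤ (1 - 1 / (p : ℝ)) ^ 4 *
      (ft a 1 p * (ft c 2 p * ft ((c : ℤ) - a).natAbs 2 p * ft (c + a) 2 p)) := by
  classical
  have : Fact p.Prime := ⟨hp⟩
  have hp0 : (0 : ℝ) < p := by exact_mod_cast hp.pos
  have h2 : (2 : ZMod p) ≠ 0 := by
    intro h
    have h3 : ((2 : ℕ) : ZMod p) = 0 := by exact_mod_cast h
    rw [ZMod.natCast_eq_zero_iff] at h3
    exact hp2 ((Nat.prime_dvd_prime_iff_eq hp Nat.prime_two).1 h3)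
  obtain ⟨c1, c2, c3, c4⟩ := card_four h2 (a : ZMod p) (c : ZMod p)
  have hcard := card_le_nu a c hp
  -- the lower bound of the number of classes and Bernoulli's inequality
  have hb : ∀ k : ℕ, k ≤ nuB (QL (Lc a c)) p → 1 - (nuB (QL (Lc a c)) p : ℝ) / p ≤ (1 - 1 / (p : ℝ)) ^ k := by
    intro k hk
    have h3 : (k : ℝ) / p ≤ (nuB (QL (Lc a c)) p : ℝ) / p :=
      div_le_div_of_nonneg_right (by exact_mod_cast hk) hp0.le
    have h4 := one_add_mul_le_pow (a := -(1 / (p : ℝ))) (by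
      have : 1 / (p : ℝ) ≤ 1 := by
        rw [div_le_one hp0]
        exact_mod_cast hp.one_le
      linarith) k
    have h5 : (1 : ℝ) + k * (-(1 / (p : ℝ))) = 1 - k / p := by ring
    rw [h5] at h4
    have h6 : 1 + -(1 / (p : ℝ)) = 1 - 1 / p := by ring
    rw [h6] at h4
    linarith
  have hq0 : 0 < 1 - 1 / (p : ℝ) := base_pos hp.two_le
  have hq1 : 1 - 1 / (p : ℝ) ≤ 1 := by
    have : 0 ≤ 1 / (p : ℝ) := by positivity
    linarith
  have hfq : (1 - 1 / (p : ℝ)) * fp p = 1 := mul_inv_cancel₀ hq0.ne'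
  have hf1 := one_le_fp hp.two_le
  obtain ⟨q, hq⟩ : ∃ q : ℝ, q = 1 - 1 / (p : ℝ) := ⟨_, rfl⟩
  obtain ⟨f, hf⟩ : ∃ f : ℝ, f = fp p := ⟨_, rfl⟩
  have t1 := one_le_ft (m := a) (k := 1) hp
  have t2 := one_le_ft (m := c) (k := 2) hp
  have t3 := one_le_ft (m := ((c : ℤ) - a).natAbs) (k := 2) hp
  have t4 := one_le_ft (m := c + a) (k := 2) hp
  rw [← hq] at hb hq0 hq1 hfq ⊢
  rw [← hf] at hfq hf1
  have e2 : q ^ 4 * f ^ 2 = q ^ 2 := by
    calc q ^ 4 * f ^ 2 = q ^ 2 * (q * f) ^ 2 := by ring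
      _ = q ^ 2 := by rw [hfq]; ring
  have e1 : q ^ 4 * f = q ^ 3 := by
    calc q ^ 4 * f = q ^ 3 * (q * f) := by ring
      _ = q ^ 3 := by rw [hfq]; ring
  have e3 : q ^ 4 * (f * (f ^ 2 * 1 * 1)) = q := by
    calc q ^ 4 * (f * (f ^ 2 * 1 * 1)) = q * (q * f) ^ 3 := by ring
      _ = q := by rw [hfq]; ring
  by_cases ha : p ∣ a
  · have ha0 : (a : ZMod p) = 0 := (ZMod.natCast_eq_zero_iff _ _).2 ha
    have ta : ft a 1 p = f := by
      unfold ft
      rw [if_pos ha, pow_one, hf]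
    rw [ta]
    by_cases hc : p ∣ c
    · have tc : ft c 2 p = f ^ 2 := by
        unfold ft
        rw [if_pos hc, hf]
      rw [tc]
      calc 1 - (nuB (QL (Lc a c)) p : ℝ) / p ≤ q ^ 1 := hb 1 (c1.trans hcard)
        _ = q ^ 4 * (f * (f ^ 2 * 1 * 1)) := by rw [e3, pow_one]
        _ ≤ _ := by
            apply mul_le_mul_of_nonneg_left _ (by positivity)
            apply mul_le_mul_of_nonneg_left _ (by linarith)
            apply mul_le_mul _ t4 zero_le_one (by positivity)
            exact mul_le_mul_of_nonneg_left t3 (by positivity)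
    · have hc0 : (c : ZMod p) ≠ 0 := fun h => hc ((ZMod.natCast_eq_zero_iff _ _).1 h)
      calc 1 - (nuB (QL (Lc a c)) p : ℝ) / p ≤ q ^ 3 := hb 3 ((c3 ha0 hc0).trans hcard)
        _ = q ^ 4 * (f * (1 * 1 * 1)) := by rw [mul_one, mul_one, mul_one, e1]
        _ ≤ _ := by
            apply mul_le_mul_of_nonneg_left _ (by positivity)
            apply mul_le_mul_of_nonneg_left _ (by linarith)
            apply mul_le_mul _ t4 zero_le_one (by positivity)
            exact mul_le_mul t2 t3 zero_le_one (by positivity)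
  · have ha0 : (a : ZMod p) ≠ 0 := fun h => ha ((ZMod.natCast_eq_zero_iff _ _).1 h)
    by_cases h : p ∣ c ∨ p ∣ ((c : ℤ) - a).natAbs ∨ p ∣ c + a
    · have h5 : f ^ 2 ≤ ft c 2 p * ft ((c : ℤ) - a).natAbs 2 p * ft (c + a) 2 p := by
        have hf2 : 1 ≤ f ^ 2 := one_le_pow₀ hf1
        rcases h with h | h | h
        · have tc : ft c 2 p = f ^ 2 := by
            unfold ft
            rw [if_pos h, hf]
          rw [tc, mul_assoc]
          exact le_mul_of_one_le_right (by positivity) (one_le_mul_of_one_le_of_one_le t3 t4)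
        · have tc : ft ((c : ℤ) - a).natAbs 2 p = f ^ 2 := by
            unfold ft
            rw [if_pos h, hf]
          rw [tc]
          calc f ^ 2 = 1 * f ^ 2 * 1 := by ring
            _ ≤ _ := by
              apply mul_le_mul _ t4 zero_le_one (by positivity)
              exact mul_le_mul_of_nonneg_right t2 (by positivity)
        · have tc : ft (c + a) 2 p = f ^ 2 := by
            unfold ft
            rw [if_pos h, hf]
          rw [tc]
          exact le_mul_of_one_le_left (by positivity) (one_le_mul_of_one_le_of_one_le t2 t3)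
      calc 1 - (nuB (QL (Lc a c)) p : ℝ) / p ≤ q ^ 2 := hb 2 ((c2 ha0).trans hcard)
        _ = q ^ 4 * (1 * f ^ 2) := by rw [one_mul, e2]
        _ ≤ _ := by
            apply mul_le_mul_of_nonneg_left _ (by positivity)
            exact mul_le_mul t1 h5 (by positivity) (by linarith)
    · push Not at h
      obtain ⟨h3, h4, h5⟩ := h
      have hc0 : (c : ZMod p) ≠ 0 := fun h => h3 ((ZMod.natCast_eq_zero_iff _ _).1 h)
      have hca : (a : ZMod p) ≠ (c : ZMod p) := fun h => h4 (natAbs_dvd_iff.2 h.symm)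
      have hca' : (a : ZMod p) ≠ -(c : ZMod p) := fun h => h5 (add_dvd_iff.2 (by rw [h, neg_neg]))
      calc 1 - (nuB (QL (Lc a c)) p : ℝ) / p ≤ q ^ 4 := hb 4 ((c4 ha0 hc0 hca hca').trans hcard)
        _ = q ^ 4 * (1 * (1 * 1 * 1)) := by ring
        _ ≤ _ := by
            apply mul_le_mul_of_nonneg_left _ (by positivity)
            apply mul_le_mul t1 _ (by norm_num) (by linarith)
            apply mul_le_mul _ t4 zero_le_one (by positivity)
            exact mul_le_mul t2 t3 zero_le_one (by positivity)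

/-- the product of the local factors -/
theorem prod_local (a c y : ℕ) (ha : a ≠ 0) (hc : c ≠ 0) (hac : c ≠ a) :
    ∏ p ∈ pz y, (1 - (nuB (QL (Lc a c)) p : ℝ) / p) ≤
      16 * (Vz y ^ 4 * (rho a * (rho c * rho ((c : ℤ) - a).natAbs * rho (c + a)) ^ 2)) := by
  classical
  have hP : ∀ p ∈ pz y, p.Prime := fun p hp => (mem_pz.1 hp).2
  have h1 : ∀ p ∈ pz y, 1 - (nuB (QL (Lc a c)) p : ℝ) / p ≤ (if p = 2 then 16 else 1) *
      ((1 - 1 / (p : ℝ)) ^ 4 *
      (ft a 1 p * (ft c 2 p * ft ((c : ℤ) - a).natAbs 2 p * ft (c + a) 2 p))) := by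
    intro p hp
    have hpp := hP p hp
    split_ifs with h
    · subst h
      have t1 := one_le_ft (m := a) (k := 1) hpp
      have t2 := one_le_ft (m := c) (k := 2) hpp
      have t3 := one_le_ft (m := ((c : ℤ) - a).natAbs) (k := 2) hpp
      have t4 := one_le_ft (m := c + a) (k := 2) hpp
      have h2 : 1 - (nuB (QL (Lc a c)) 2 : ℝ) / (2 : ℕ) ≤ 1 := by
        have : 0 ≤ (nuB (QL (Lc a c)) 2 : ℝ) / (2 : ℕ) := by positivity
        linarith
      have h3 : (1 : ℝ) ≤ ft a 1 2 * (ft c 2 2 * ft ((c : ℤ) - a).natAbs 2 2 * ft (c + a) 2 2) :=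
        one_le_mul_of_one_le_of_one_le t1 (one_le_mul_of_one_le_of_one_le
          (one_le_mul_of_one_le_of_one_le t2 t3) t4)
      refine h2.trans (h3.trans (le_of_eq ?_))
      push_cast
      ring
    · rw [one_mul]
      exact local_le a c hpp h
  have h0 : ∀ p ∈ pz y, 0 ≤ 1 - (nuB (QL (Lc a c)) p : ℝ) / p := by
    intro p hp
    have hp0 : (0 : ℝ) < p := by exact_mod_cast (hP p hp).pos
    have : (nuB (QL (Lc a c)) p : ℝ) / p ≤ 1 := by
      rw [div_le_one hp0]
      exact_mod_cast nuB_le _ p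
    linarith
  refine (prod_le_prod h0 h1).trans ?_
  rw [prod_mul_distrib, prod_mul_distrib, prod_mul_distrib, prod_mul_distrib, prod_mul_distrib,
    prod_pow]
  have k1 : ∏ p ∈ pz y, (if p = 2 then (16 : ℝ) else 1) ≤ 16 := by
    rw [prod_ite_eq']
    split_ifs <;> norm_num
  have k1' : 0 ≤ ∏ p ∈ pz y, (if p = 2 then (16 : ℝ) else 1) := prod_nonneg fun p _ => by
    split_ifs <;> norm_num
  have k2 := part_le hP ha 1
  have k3 := part_le hP hc 2
  have k4 := part_le hP (m := ((c : ℤ) - a).natAbs) (by omega) 2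
  have k5 := part_le hP (m := c + a) (by omega) 2
  have nn : ∀ m k : ℕ, 0 ≤ ∏ p ∈ pz y, ft m k p := fun m k => prod_nonneg fun p hp =>
    zero_le_one.trans (one_le_ft (hP p hp))
  have r1 := one_le_rho a
  have r2 := one_le_rho c
  have r3 := one_le_rho ((c : ℤ) - a).natAbs
  have r4 := one_le_rho (c + a)
  have hV : 0 ≤ Vz y := (Vz_pos y).le
  have e1 : rho a * (rho c * rho ((c : ℤ) - a).natAbs * rho (c + a)) ^ 2 =
      rho a ^ 1 * (rho c ^ 2 * rho ((c : ℤ) - a).natAbs ^ 2 * rho (c + a) ^ 2) := by ring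
  rw [e1]
  have hVe : ∏ p ∈ pz y, (1 - 1 / (p : ℝ)) = Vz y := rfl
  rw [hVe]
  refine mul_le_mul k1 ?_ ?_ (by norm_num)
  · apply mul_le_mul_of_nonneg_left _ (by positivity)
    refine mul_le_mul k2 ?_ ?_ (by positivity)
    · refine mul_le_mul (mul_le_mul k3 k4 (nn _ _) (by positivity)) k5 (nn _ _) (by positivity)
    · exact mul_nonneg (mul_nonneg (nn _ _) (nn _ _)) (nn _ _)
  · exact mul_nonneg (pow_nonneg hV _) (mul_nonneg (nn _ _)
      (mul_nonneg (mul_nonneg (nn _ _) (nn _ _)) (nn _ _)))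

end Pool.Agent.V1153.GG
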