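import Mathlib
import Pool.Agent.V1153.GG.Nu
import Pool.Agent.H305R2.MertensE

/-!
Upper bounds for the number of common neighbours in the Goldbach graph (in halved coordinates).
-/

set_option autoImplicit false

namespace Pool.Agent.V1153.GG

open Finset Pool.Agent.H373R2.T7

/-- the neighbours `b` of `a`, `1 ≤ b ≤ n` -/
def nbr (n a : ℕ) : Finset ℕ :=
  (Icc 1 n).filter fun b => (a + b).Prime ∧ ((a : ℤ) - b).natAbs.Prime

theorem mem_nbr {n a b : ℕ} : b ∈ nbr n a ↔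
    (1 ≤ b ∧ b ≤ n) ∧ (a + b).Prime ∧ ((a : ℤ) - b).natAbs.Prime := by
  unfold nbr
  rw [mem_filter, mem_Icc]

/-- `V(y) ≤ 2 / log y` -/
theorem Vz_up : ∃ y0 : ℕ, ∀ y : ℕ, y0 ≤ y → Vz y ≤ 2 / Real.log y := by
  have h1 := Pool.Agent.H305R2.mertens_three
  have h2 : (1 / 2 : ℝ) < Real.exp Real.eulerMascheroniConstant := by
    have h3 := Real.add_one_le_exp Real.eulerMascheroniConstant
    have h4 := Real.one_half_lt_eulerMascheroniConstant
    linarith
  obtain ⟨y0, hy0⟩ := Filter.eventually_atTop.1 (h1.eventually (lt_mem_nhds h2))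
  refine ⟨max y0 3, fun y hy => ?_⟩
  have h3 := hy0 y ((le_max_left _ _).trans hy)
  have hy3 : 3 ≤ y := (le_max_right _ _).trans hy
  have hl : 0 < Real.log y := Real.log_pos (by exact_mod_cast (by omega : 1 < y))
  rw [lt_div_iff₀ hl] at h3
  have h4 : (∏ p ∈ (Icc 1 y).filter Nat.Prime, (1 - (p : ℝ)⁻¹)⁻¹) = (Vz y)⁻¹ := by
    unfold Vz pz
    rw [← prod_inv_distrib]
    refine prod_congr rfl fun p _ => ?_
    rw [one_div]
  rw [h4] at h3
  have hV := Vz_pos y
  have h5 : 1 / 2 * Real.log y * Vz y < 1 := by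
    calc 1 / 2 * Real.log y * Vz y < (Vz y)⁻¹ * Vz y := mul_lt_mul_of_pos_right h3 hV
      _ = 1 := inv_mul_cancel₀ hV.ne'
  rw [le_div_iff₀ hl]
  linarith

/-- the sifting limit -/
theorem choose_y (K x0 : ℕ) (hK : 1 ≤ K) : ∃ N0 : ℕ, ∀ n : ℕ, N0 ≤ n → ∃ y : ℕ, x0 ≤ y ∧ 1 ≤ y ∧
    y ^ K ≤ n ∧ (y : ℝ) ≤ √(n : ℝ) ∧ Vz y ≤ (8 * K) / Real.log n := by
  obtain ⟨y0, hy0⟩ := Vz_up
  have hK' : (1 : ℝ) ≤ K := by exact_mod_cast hK
  set s : ℝ := 1 / (2 * K) with hs
  have hs0 : 0 < s := by positivity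
  have hlim : Filter.Tendsto (fun n : ℕ => (n : ℝ) ^ s) Filter.atTop Filter.atTop :=
    (tendsto_rpow_atTop hs0).comp tendsto_natCast_atTop_atTop
  have hlog : Filter.Tendsto (fun n : ℕ => Real.log (n : ℝ)) Filter.atTop Filter.atTop :=
    Real.tendsto_log_atTop.comp tendsto_natCast_atTop_atTop
  obtain ⟨N0, hN0⟩ := Filter.eventually_atTop.1 ((hlim.eventually_ge_atTop ((x0 + y0 + 3 : ℕ) : ℝ)).and
    (hlog.eventually_ge_atTop (2 / s)))
  refine ⟨max N0 1, fun n hn => ?_⟩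
  obtain ⟨h1, h2⟩ := hN0 n ((le_max_left _ _).trans hn)
  have hn1 : (1 : ℝ) ≤ n := by exact_mod_cast (le_max_right _ _).trans hn
  have hn0 : (0 : ℝ) < n := by linarith
  obtain ⟨y, hy⟩ : ∃ y : ℕ, y = ⌊(n : ℝ) ^ s⌋₊ := ⟨_, rfl⟩
  have hy1 : x0 + y0 + 3 ≤ y := by
    rw [hy]
    exact Nat.le_floor h1
  have hyle : (y : ℝ) ≤ (n : ℝ) ^ s := by
    rw [hy]
    exact Nat.floor_le (by positivity)
  have hyK : (y : ℝ) ^ K ≤ √(n : ℝ) := by
    calc (y : ℝ) ^ K ≤ ((n : ℝ) ^ s) ^ K := pow_le_pow_left₀ (by positivity) hyle _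
      _ = √(n : ℝ) := by
          rw [← Real.rpow_natCast, ← Real.rpow_mul hn0.le, Real.sqrt_eq_rpow]
          congr 1
          rw [hs]
          field_simp
  have hsq : √(n : ℝ) ≤ n := by
    rw [Real.sqrt_le_left hn0.le]
    nlinarith
  have hy3 : (3 : ℝ) ≤ y := by exact_mod_cast (by omega : 3 ≤ y)
  refine ⟨y, by omega, by omega, ?_, ?_, ?_⟩
  · exact_mod_cast hyK.trans hsq
  · refine le_trans ?_ hyK
    calc (y : ℝ) = (y : ℝ) ^ 1 := (pow_one _).symm
      _ ≤ (y : ℝ) ^ K := pow_le_pow_right₀ (by linarith) hK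
  · have h3 : (n : ℝ) ^ s < y + 1 := by
      rw [hy]
      exact Nat.lt_floor_add_one _
    have h4 : s * Real.log n ≤ Real.log (y + 1) := by
      rw [← Real.log_rpow hn0]
      exact Real.log_le_log (by positivity) h3.le
    have h5 : Real.log (y + 1) ≤ Real.log y + Real.log 2 := by
      rw [← Real.log_mul (by positivity) (by norm_num)]
      apply Real.log_le_log (by positivity)
      linarith
    have h6 : Real.log 2 ≤ 1 := by
      have := Real.log_two_lt_d9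
      linarith
    have h7 : 2 ≤ s * Real.log n := by
      rw [div_le_iff₀ hs0] at h2
      linarith
    have h8 : s / 2 * Real.log n ≤ Real.log y := by linarith
    have hln : 0 < Real.log n := by
      by_contra h
      have : s * Real.log n ≤ 0 := mul_nonpos_of_nonneg_of_nonpos hs0.le (not_lt.1 h)
      linarith
    calc Vz y ≤ 2 / Real.log y := hy0 y (by omega)
      _ ≤ 2 / (s / 2 * Real.log n) := by
          apply div_le_div_of_nonneg_left (by norm_num) (by positivity) h8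
      _ = (8 * K) / Real.log n := by
          rw [hs]
          field_simp
          norm_num

/-- the number of common neighbours -/
theorem cn : ∃ (C : ℝ) (N0 : ℕ), 0 < C ∧ ∀ n : ℕ, N0 ≤ n → ∀ a c : ℕ, 1 ≤ a → a ≤ n → 1 ≤ c →
    c ≤ n → c ≠ a → ((nbr n a ∩ nbr n c).card : ℝ) ≤ C * (n / Real.log n ^ 4) *
      (rho a * (rho c * rho ((c : ℤ) - a).natAbs * rho (c + a)) ^ 2) := by
  classical
  obtain ⟨K, x0, hK, hF⟩ := sys_fund 4 (by norm_num) 1 one_pos
  obtain ⟨N1, hN1⟩ := choose_y K x0 hK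
  obtain ⟨N2, hN2⟩ := ev_log 8 4
  have hK' : (1 : ℝ) ≤ K := by exact_mod_cast hK
  refine ⟨32 * (8 * K) ^ 4 + 1, max (max N1 N2) 3, by positivity, fun n hn a c ha1 han hc1 hcn hac => ?_⟩
  have hn1 : N1 ≤ n := ((le_max_left _ _).trans (le_max_left _ _)).trans hn
  have hn2 : N2 ≤ n := ((le_max_right _ _).trans (le_max_left _ _)).trans hn
  have hn3 : 3 ≤ n := (le_max_right _ _).trans hn
  obtain ⟨y, hyx, hy1, hyK, hys, hV⟩ := hN1 n hn1
  have h8 := hN2 n hn2
  have hnr : (3 : ℝ) ≤ n := by exact_mod_cast hn3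
  have hn0 : (0 : ℝ) < n := by linarith
  have hln : 0 < Real.log n := Real.log_pos (by linarith)
  have hprim : ∀ p : ℕ, p.Prime → ∀ f ∈ Lc a c, ¬ ((p : ℤ) ∣ f.1 ∧ (p : ℤ) ∣ f.2) := by
    intro p hp
    have h1 : ¬ (p : ℤ) ∣ 1 := fun h => (Nat.prime_iff_prime_int.1 hp).not_isUnit (isUnit_of_dvd_one h)
    exact (Lc_iff a c _).2 ⟨fun h => h1 h.1, fun h => h1 h.1, fun h => h1 h.1, fun h => h1 h.1⟩
  have hper : PerB (QL (Lc a c)) 4 := by
    refine ⟨fun p n => ?_, fun p hp => (nuB_le_card _ hp (hprim p hp)).trans (four_card _ _ _ _)⟩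
    unfold QL
    refine exists_congr fun f => and_congr_right fun _ => dvd_mod _ _ _ _
  have h1 := hF n y hyx hyK (QL (Lc a c)) hper n
  have h2 := (abs_le.1 h1).2
  obtain ⟨P, hP⟩ : ∃ P : ℝ, P = ∏ p ∈ pz y, (1 - (nuB (QL (Lc a c)) p : ℝ) / p) := ⟨_, rfl⟩
  rw [← hP] at h2
  have h3 := prod_local a c y (by omega) (by omega) hac
  rw [← hP] at h3
  -- the cover
  have hsub : nbr n a ∩ nbr n c ⊆ (Icc 1 n).filter (fun m => ∀ p ∈ pz y, ¬ QL (Lc a c) p m) ∪
      (Icc (a - y) (a + y) ∪ (Icc (c - y) (c + y) ∪ Icc 1 y)) := by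
    intro b hb
    rw [mem_inter, mem_nbr, mem_nbr] at hb
    obtain ⟨⟨⟨hb1, hbn⟩, q1, q2⟩, -, q3, q4⟩ := hb
    by_cases hs : a + b ≤ y ∨ ((a : ℤ) - b).natAbs ≤ y ∨ c + b ≤ y ∨ ((c : ℤ) - b).natAbs ≤ y
    · apply mem_union_right
      simp only [mem_union, mem_Icc]
      omega
    · apply mem_union_left
      push Not at hs
      obtain ⟨s1, s2, s3, s4⟩ := hs
      rw [mem_filter, mem_Icc]
      refine ⟨⟨hb1, hbn⟩, fun p hp hQ => ?_⟩
      obtain ⟨hpy, hpp⟩ := mem_pz.1 hp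
      have key : ∀ m : ℕ, m.Prime → y < m → ¬ p ∣ m := by
        intro m hm hym hpm
        have := (Nat.prime_dvd_prime_iff_eq hpp hm).1 hpm
        omega
      have k1 := key _ q1 s1
      have k2 := key _ q2 s2
      have k3 := key _ q3 s3
      have k4 := key _ q4 s4
      refine absurd hQ ?_
      unfold QL
      push Not
      refine (Lc_iff a c _).2 ⟨fun h => k1 ?_, fun h => k2 ?_, fun h => k3 ?_, fun h => k4 ?_⟩
      · have h5 : (p : ℤ) ∣ ((a + b : ℕ) : ℤ) := by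
          push_cast
          have h6 : (a : ℤ) + b = 1 * b + a := by ring
          rw [h6]
          exact h
        exact_mod_cast h5
      · rw [← Int.natCast_dvd]
        have h6 : (a : ℤ) - b = -(1 * b + -a) := by ring
        rw [h6]
        exact (dvd_neg).2 h
      · have h5 : (p : ℤ) ∣ ((c + b : ℕ) : ℤ) := by
          push_cast
          have h6 : (c : ℤ) + b = 1 * b + c := by ring
          rw [h6]
          exact h
        exact_mod_cast h5
      · rw [← Int.natCast_dvd]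
        have h6 : (c : ℤ) - b = -(1 * b + -c) := by ring
        rw [h6]
        exact (dvd_neg).2 h
  have hcard := (card_le_card hsub).trans (card_union_le _ _)
  have hsm : (Icc (a - y) (a + y) ∪ (Icc (c - y) (c + y) ∪ Icc 1 y)).card ≤ 7 * y := by
    refine (card_union_le _ _).trans ?_
    have e1 : (Icc (a - y) (a + y)).card ≤ 2 * y + 1 := by
      rw [Nat.card_Icc]
      omega
    have e2 : (Icc (c - y) (c + y)).card ≤ 2 * y + 1 := by
      rw [Nat.card_Icc]
      omega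
    have e3 : (Icc 1 y).card ≤ y := by
      rw [Nat.card_Icc]
      omega
    have e4 := card_union_le (Icc (c - y) (c + y)) (Icc 1 y)
    omega
  have hcard' : ((nbr n a ∩ nbr n c).card : ℝ) ≤
      (((Icc 1 n).filter (fun m => ∀ p ∈ pz y, ¬ QL (Lc a c) p m)).card : ℝ) + 7 * y := by
    have := hcard.trans (Nat.add_le_add_left hsm _)
    exact_mod_cast this
  -- the main term
  obtain ⟨R, hR⟩ : ∃ R : ℝ, R = rho a * (rho c * rho ((c : ℤ) - a).natAbs * rho (c + a)) ^ 2 := ⟨_, rfl⟩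
  rw [← hR] at h3 ⊢
  have hR1 : 1 ≤ R := by
    rw [hR]
    exact one_le_mul_of_one_le_of_one_le (one_le_rho a) (one_le_pow₀
      (one_le_mul_of_one_le_of_one_le (one_le_mul_of_one_le_of_one_le (one_le_rho c) (one_le_rho _))
        (one_le_rho _)))
  have hV0 : 0 ≤ Vz y := (Vz_pos y).le
  have h4 : P ≤ 16 * (((8 * K) / Real.log n) ^ 4 * R) := by
    refine h3.trans ?_
    apply mul_le_mul_of_nonneg_left _ (by norm_num)
    exact mul_le_mul_of_nonneg_right (pow_le_pow_left₀ hV0 hV _) (by linarith)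
  have h5 : 8 * √(n : ℝ) ≤ n / Real.log n ^ 4 := by
    rw [le_div_iff₀ (by positivity)]
    calc 8 * √(n : ℝ) * Real.log n ^ 4 = (8 * Real.log n ^ 4) * √(n : ℝ) := by ring
      _ ≤ √(n : ℝ) * √(n : ℝ) := mul_le_mul_of_nonneg_right h8 (Real.sqrt_nonneg _)
      _ = n := Real.mul_self_sqrt hn0.le
  have h6 : 8 * √(n : ℝ) ≤ (n / Real.log n ^ 4) * R :=
    h5.trans (le_mul_of_one_le_right (by positivity) hR1)
  calc ((nbr n a ∩ nbr n c).card : ℝ) ≤ 2 * (n * P) + 8 * √(n : ℝ) := by linarith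
    _ ≤ 2 * (n * (16 * (((8 * K) / Real.log n) ^ 4 * R))) + (n / Real.log n ^ 4) * R := by
        gcongr
    _ = (32 * (8 * K) ^ 4 + 1) * (n / Real.log n ^ 4) * R := by
        rw [div_pow]
        ring

end Pool.Agent.V1153.GG
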