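import Mathlib
import Pool.Agent.V1153.GG.Up
import Pool.Agent.W93.GB4
import Pool.Agent.H560R3.GB.Tup3

/-!
Almost all vertices of the Goldbach graph have the expected degree, up to a constant factor.
-/

set_option autoImplicit false

namespace Pool.Agent.V1153.GG

open Finset Pool.Agent.H373R2.T7 Pool.Agent.W93.GB
open Pool.Agent.H560R3.GB (g HL sing C₂ primeTuples)

theorem deg_gold {n a : ℕ} (han : a ≤ n) : g (2 * a) ≤ 2 * (nbr n a).card + 1 := by
  classical
  rw [g_eq]
  set S := (Icc 1 (2 * a)).filter (fun b => b.Prime ∧ (2 * a - b).Prime) with hS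
  have h1 : S.card ≤ (S.erase a).card + 1 := by
    have := pred_card_le_card_erase (s := S) (a := a)
    omega
  have h2 : (S.erase a).card ≤ 2 * (nbr n a).card := by
    apply card_le_mul_card_image_of_maps_to (f := fun b : ℕ => ((a : ℤ) - b).natAbs)
    · intro b hb
      rw [mem_erase, hS, mem_filter, mem_Icc] at hb
      obtain ⟨hne, ⟨hb1, hb2⟩, hp, hq⟩ := hb
      rw [mem_nbr]
      refine ⟨⟨by omega, by omega⟩, ?_⟩
      rcases lt_or_gt_of_ne hne with h | h
      · have e1 : a + ((a : ℤ) - b).natAbs = 2 * a - b := by omega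
        have e2 : ((a : ℤ) - (((a : ℤ) - b).natAbs : ℕ)).natAbs = b := by omega
        rw [e1, e2]
        exact ⟨hq, hp⟩
      · have e1 : a + ((a : ℤ) - b).natAbs = b := by omega
        have e2 : ((a : ℤ) - (((a : ℤ) - b).natAbs : ℕ)).natAbs = 2 * a - b := by omega
        rw [e1, e2]
        exact ⟨hp, hq⟩
    · intro m _
      calc ((S.erase a).filter (fun b : ℕ => ((a : ℤ) - (b : ℤ)).natAbs = m)).card ≤
          ({a + m, a - m} : Finset ℕ).card := by
            apply card_le_card
            intro b hb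
            rw [mem_filter] at hb
            simp only [mem_insert, mem_singleton]
            omega
        _ ≤ 2 := card_le_two
  omega

theorem deg_diff {n a : ℕ} (han : 2 * a ≤ n) :
    primeTuples (fun _ : Fin 1 => 2 * a) (n / 2) ≤ (nbr n a).card := by
  unfold primeTuples
  apply card_le_card_of_injOn (fun p => a + p)
  · intro p hp
    rw [mem_coe, mem_filter, mem_Icc] at hp
    obtain ⟨⟨h1, h2⟩, h3, h4⟩ := hp
    rw [mem_coe, mem_nbr]
    dsimp only
    refine ⟨⟨by omega, by omega⟩, ?_, ?_⟩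
    · have e : a + (a + p) = p + 2 * a := by ring
      rw [e]
      exact h4 0
    · have e : ((a : ℤ) - ((a + p : ℕ) : ℤ)).natAbs = p := by omega
      rw [e]
      exact h3
  · intro p _ q _ h
    exact Nat.add_left_cancel h

theorem fp_le_dv {p : ℕ} (hp : 2 < p) : fp p ≤ dv p := by
  have h : (3 : ℝ) ≤ p := by exact_mod_cast hp
  unfold fp dv
  rw [inv_le_iff_one_le_mul₀ (base_pos hp.le)]
  have h2 : (p : ℝ) - 2 ≠ 0 := by linarith
  have h3 : (p : ℝ) ≠ 0 := by linarith
  rw [one_sub_div h3, div_mul_div_comm, le_div_iff₀ (mul_pos (by linarith) (by linarith))]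
  nlinarith

theorem sing_ge_rho {a : ℕ} (ha : a ≠ 0) : rho a / 2 ≤ sing (2 * a) := by
  classical
  rw [sing_eq]
  have hC := C2_half
  set D := ∏ p ∈ (2 * a).primeFactors.filter (fun p => 2 < p), dv p with hD
  have hD1 : 1 ≤ D := one_le_prod_dv _ fun p hp => (mem_filter.1 hp).2
  have hsub : a.primeFactors ⊆ insert 2 ((2 * a).primeFactors.filter (fun p => 2 < p)) := by
    intro p hp
    have hpp := Nat.prime_of_mem_primeFactors hp
    rw [mem_insert, mem_filter, Nat.mem_primeFactors]
    rcases Nat.lt_or_ge 2 p with h | h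
    · exact Or.inr ⟨⟨hpp, Dvd.dvd.mul_left (Nat.dvd_of_mem_primeFactors hp) 2, by omega⟩, h⟩
    · exact Or.inl (le_antisymm h hpp.two_le)
  have h1 : rho a ≤ ∏ p ∈ insert 2 ((2 * a).primeFactors.filter (fun p => 2 < p)), fp p := by
    unfold rho
    rw [← prod_sdiff hsub]
    have h2 : 1 ≤ ∏ p ∈ insert 2 ((2 * a).primeFactors.filter (fun p => 2 < p)) \ a.primeFactors, fp p := by
      calc (1 : ℝ) = ∏ _p ∈ insert 2 ((2 * a).primeFactors.filter (fun p => 2 < p)) \ a.primeFactors, (1 : ℝ) := by simp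
        _ ≤ _ := prod_le_prod (fun _ _ => zero_le_one) fun p hp => by
          rw [mem_sdiff, mem_insert, mem_filter] at hp
          exact one_le_fp (by omega)
    exact le_mul_of_one_le_left (prod_nonneg fun p hp =>
      zero_le_one.trans (one_le_fp (Nat.prime_of_mem_primeFactors hp).two_le)) h2
  rw [prod_insert (by simp)] at h1
  have h2 : fp 2 = 2 := by
    unfold fp
    norm_num
  have h3 : ∏ p ∈ (2 * a).primeFactors.filter (fun p => 2 < p), fp p ≤ D := by
    apply prod_le_prod
    · intro p hp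
      exact zero_le_one.trans (one_le_fp (mem_filter.1 hp).2.le)
    · intro p hp
      exact fp_le_dv (mem_filter.1 hp).2
  rw [h2] at h1
  nlinarith

theorem nuP_pos (m p : ℕ) (hp : p.Prime) :
    nuP (fun _ : Fin 1 => ((m : ℕ) : ℤ)) p = nuP (sh m) p := by
  rw [nuP_sh m p hp, nuP_eq _ _ hp]
  unfold rhoP
  split_ifs with h
  · have h1 : (range p).filter (fun r : ℕ => ¬ p ∣ r ∧ ∃ _i : Fin 1, (p : ℤ) ∣ (r : ℤ) + (m : ℤ)) = ∅ := by
      rw [filter_eq_empty_iff]
      rintro r _ ⟨h1, ⟨_, h2⟩⟩
      apply h1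
      have h3 : p ∣ r + m := by exact_mod_cast h2
      exact (Nat.dvd_add_left h).1 h3
    rw [h1, card_empty]
  · have h1 : (range p).filter (fun r : ℕ => ¬ p ∣ r ∧ ∃ _i : Fin 1, (p : ℤ) ∣ (r : ℤ) + (m : ℤ)) =
        {p - m % p} := by
      have hmod : 0 < m % p := Nat.pos_of_ne_zero fun h' => h (Nat.dvd_of_mod_eq_zero h')
      have hlt := Nat.mod_lt m hp.pos
      ext r
      rw [mem_filter, mem_range, mem_singleton]
      constructor
      · rintro ⟨h2, _, ⟨_, h3⟩⟩
        have h4 : p ∣ r + m := by exact_mod_cast h3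
        have h5 : p ∣ r + m % p := by
          rw [← Nat.mod_add_div m p, ← add_assoc] at h4
          exact (Nat.dvd_add_left (Dvd.intro _ rfl)).1 h4
        obtain ⟨k, hk⟩ := h5
        have hk1 : k = 1 := by
          have hk2 : p * k < p * 2 := by omega
          have hk3 : 0 < p * k := by omega
          have := Nat.lt_of_mul_lt_mul_left hk2
          have := Nat.pos_of_mul_pos_left hk3
          omega
        rw [hk1] at hk
        omega
      · rintro rfl
        refine ⟨by omega, fun h2 => ?_, ⟨0, ?_⟩⟩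
        · have := Nat.le_of_dvd (by omega) h2
          omega
        · have h2 : p ∣ (p - m % p) + m := by
            refine ⟨1 + m / p, ?_⟩
            have h3 := Nat.div_add_mod m p
            rw [mul_add, mul_one]
            omega
          exact_mod_cast h2
    rw [h1, card_singleton]

theorem singZ_eq (m z : ℕ) : singZ (fun _ : Fin 1 => ((m : ℕ) : ℤ)) z = singZ (sh m) z := by
  unfold singZ
  refine prod_congr rfl fun p hp => ?_
  rw [nuP_pos m p (mem_filter.1 hp).2]

theorem S_ge {a : ℕ} (ha : a ≠ 0) {S : ℝ}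
    (hS : Filter.Tendsto (fun z => singZ (fun _ : Fin 1 => ((2 * a : ℕ) : ℤ)) z) Filter.atTop (nhds S)) :
    sing (2 * a) ≤ S := by
  have h1 : Filter.Tendsto (fun z : ℕ => Real.exp ((Nat.log 2 (2 * a) : ℝ) / ((z : ℝ) - 1)) *
      singZ (fun _ : Fin 1 => ((2 * a : ℕ) : ℤ)) z) Filter.atTop (nhds (1 * S)) := by
    apply Filter.Tendsto.mul _ hS
    have h2 : Filter.Tendsto (fun z : ℕ => (Nat.log 2 (2 * a) : ℝ) / ((z : ℝ) - 1)) Filter.atTop (nhds 0) := by
      apply Filter.Tendsto.div_atTop tendsto_const_nhds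
      exact Filter.tendsto_atTop_add_const_right _ _ tendsto_natCast_atTop_atTop
    have h3 := (Real.continuous_exp.tendsto 0).comp h2
    rw [Real.exp_zero] at h3
    exact h3
  rw [one_mul] at h1
  apply ge_of_tendsto h1
  filter_upwards [Filter.eventually_ge_atTop 2] with z hz
  rw [singZ_eq]
  exact sing_le (2 * a) z (Dvd.intro _ rfl) (by omega) hz

end Pool.Agent.V1153.GG
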