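import Mathlib
import Pool.Agent.V1153.GG.Dg

/-!
All but `n / (log n) ^ U` vertices of the Goldbach graph have a degree of the expected order.
-/

set_option autoImplicit false

namespace Pool.Agent.V1153.GG

open Finset Pool.Agent.H373R2.T7 Pool.Agent.W93.GB
open Pool.Agent.H560R3.GB (g HL sing C₂ primeTuples)

theorem energy_one (x : ℕ) : Pool.Agent.H373R2.T7.energy 1 x (fun m => ((2 * m : ℕ) : ℤ)) ≤ x := by
  classical
  unfold Pool.Agent.H373R2.T7.energy
  calc _ ≤ (Icc 1 x).card := by
        apply card_le_card_of_injOn (fun q => q.1 0)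
        · intro q hq
          have h1 := (mem_product.1 (mem_filter.1 hq).1).1
          exact Fintype.mem_piFinset.1 h1 0
        · intro q hq q' hq' h
          have h1 := (mem_filter.1 hq).2
          have h2 := (mem_filter.1 hq').2
          simp only [Fin.sum_univ_one] at h1 h2
          dsimp only at h
          have e1 : q.1 = q'.1 := by
            funext i
            have : i = 0 := Subsingleton.elim _ _
            rw [this]; exact h
          have e2 : q.2 = q'.2 := by
            funext i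
            have : i = 0 := Subsingleton.elim _ _
            rw [this]
            omega
          exact Prod.ext e1 e2
    _ = x := by rw [Nat.card_Icc]; omega

theorem energy_one' (x : ℕ) : Pool.Agent.H560R3.GB.energy 1 x (fun m => 2 * m) ≤ x := by
  classical
  unfold Pool.Agent.H560R3.GB.energy
  calc _ ≤ (Icc 1 x).card := by
        apply card_le_card_of_injOn (fun q => q.1 0)
        · intro q hq
          have h1 := (mem_product.1 (mem_filter.1 hq).1).1
          exact Fintype.mem_piFinset.1 h1 0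
        · intro q hq q' hq' h
          have h1 := (mem_filter.1 hq).2
          have h2 := (mem_filter.1 hq').2
          simp only [Fin.sum_univ_one] at h1 h2
          dsimp only at h
          have e1 : q.1 = q'.1 := by
            funext i
            have : i = 0 := Subsingleton.elim _ _
            rw [this]; exact h
          have e2 : q.2 = q'.2 := by
            funext i
            have : i = 0 := Subsingleton.elim _ _
            rw [this]
            omega
          exact Prod.ext e1 e2
    _ = x := by rw [Nat.card_Icc]; omega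

/-- the large vertices -/
theorem deg_large (U : ℕ) : ∃ N0 : ℕ, ∀ n : ℕ, N0 ≤ n → ∀ E : Finset ℕ, E ⊆ Icc 1 n →
    (∀ a ∈ E, n < 2 * a ∧ ((nbr n a).card : ℝ) < 1 / 64 * rho a * (n / Real.log n ^ 2)) →
    (E.card : ℝ) ≤ n / Real.log n ^ U := by
  obtain ⟨N1, hN1⟩ := fam 1 2 1 U le_rfl (1 / 2) (by norm_num)
  obtain ⟨N2, hN2⟩ := ev_log 32 2
  refine ⟨max (max N1 N2) 30, fun n hn E hE hdeg => ?_⟩
  have hn1 : N1 ≤ n := ((le_max_left _ _).trans (le_max_left _ _)).trans hn
  have hn2 : N2 ≤ n := ((le_max_right _ _).trans (le_max_left _ _)).trans hn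
  have hn3 : 30 ≤ n := (le_max_right _ _).trans hn
  have hnr : (30 : ℝ) ≤ n := by exact_mod_cast hn3
  have hn0 : (0 : ℝ) < n := by linarith
  have hl1 : 1 ≤ Real.log n := by
    rw [Real.le_log_iff_exp_le hn0]
    have := Real.exp_one_lt_d9
    linarith
  have hl0 : 0 < Real.log n := by linarith
  have h32 := hN2 n hn2
  apply hN1 n hn1 n (fun m => 2 * m)
  · intro m hm
    rw [mem_Icc] at hm
    exact ⟨by omega, Dvd.intro _ rfl⟩
  · have h1 : (Pool.Agent.H560R3.GB.energy 1 n (fun m => 2 * m) : ℝ) ≤ n := by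
      exact_mod_cast energy_one' n
    calc (Pool.Agent.H560R3.GB.energy 1 n (fun m => 2 * m) : ℝ) * n ≤ n * n :=
          mul_le_mul_of_nonneg_right h1 hn0.le
      _ ≤ Real.log n ^ 1 * (n : ℝ) ^ (2 * 1) := by
          have h2 : (n : ℝ) ^ (2 * 1) = n * n := by norm_num [sq]
          rw [pow_one, h2]
          exact le_mul_of_one_le_left (by positivity) hl1
  · exact hE
  · intro a ha hgood
    obtain ⟨h1, h2⟩ := hdeg a ha
    have ha1 := (mem_Icc.1 (hE ha)).1
    have han := (mem_Icc.1 (hE ha)).2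
    have h3 := (abs_le.1 hgood.1).1
    have h4 : (g (2 * a) : ℝ) ≤ 2 * (nbr n a).card + 1 := by exact_mod_cast deg_gold han
    have h5 := sing_ge_rho (a := a) (by omega)
    have hr := one_le_rho a
    have h6 : rho a / 2 * (n / (4 * Real.log n ^ 2)) ≤ HL (2 * a) := by
      unfold HL
      have h7 : (n : ℝ) / (4 * Real.log n ^ 2) ≤ ((2 * a : ℕ) : ℝ) / Real.log ((2 * a : ℕ) : ℝ) ^ 2 := by
        have h8 : (n : ℝ) ≤ ((2 * a : ℕ) : ℝ) := by exact_mod_cast h1.le
        have h9 : Real.log ((2 * a : ℕ) : ℝ) ≤ 2 * Real.log n := by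
          have h10 : ((2 * a : ℕ) : ℝ) ≤ (n : ℝ) ^ 2 := by
            have : ((2 * a : ℕ) : ℝ) ≤ 2 * n := by
              push_cast
              have : (a : ℝ) ≤ n := by exact_mod_cast han
              linarith
            nlinarith
          calc Real.log ((2 * a : ℕ) : ℝ) ≤ Real.log ((n : ℝ) ^ 2) :=
                Real.log_le_log (by linarith) h10
            _ = 2 * Real.log n := by rw [Real.log_pow]; norm_num
        have h11 : 0 < Real.log ((2 * a : ℕ) : ℝ) := Real.log_pos (by linarith)
        calc (n : ℝ) / (4 * Real.log n ^ 2) = n / (2 * Real.log n) ^ 2 := by rw [mul_pow]; norm_num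
          _ ≤ n / Real.log ((2 * a : ℕ) : ℝ) ^ 2 := by
              apply div_le_div_of_nonneg_left hn0.le (by positivity)
              exact pow_le_pow_left₀ h11.le h9 _
          _ ≤ _ := div_le_div_of_nonneg_right h8 (by positivity)
      exact mul_le_mul h5 h7 (by positivity) (by linarith)
    have h7 : 32 ≤ rho a * (n / Real.log n ^ 2) := by
      have h8 : 32 ≤ (n : ℝ) / Real.log n ^ 2 := by
        rw [le_div_iff₀ (by positivity)]
        refine h32.trans ?_
        rw [Real.sqrt_le_left hn0.le]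
        nlinarith
      exact h8.trans (le_mul_of_one_le_left (by positivity) hr)
    have h8 : rho a / 2 * (n / (4 * Real.log n ^ 2)) = 1 / 8 * (rho a * (n / Real.log n ^ 2)) := by
      field_simp
      norm_num
    rw [h8] at h6
    have h9 : 1 / 64 * rho a * (n / Real.log n ^ 2) = 1 / 64 * (rho a * (n / Real.log n ^ 2)) := by ring
    rw [h9] at h2
    linarith

/-- the small vertices -/
theorem deg_small (U : ℕ) : ∃ N0 : ℕ, ∀ n : ℕ, N0 ≤ n → ∀ E : Finset ℕ, E ⊆ Icc 1 n →
    (∀ a ∈ E, 2 * a ≤ n ∧ ((nbr n a).card : ℝ) < 1 / 64 * rho a * (n / Real.log n ^ 2)) →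
    (E.card : ℝ) ≤ 2 ^ U * (n / Real.log n ^ U) := by
  classical
  obtain ⟨N1, hN1⟩ := Pool.Agent.H560R3.GB.ftuples_full 1 1 2 1 (U + 1) le_rfl le_rfl
  obtain ⟨N2, hN2⟩ := Pool.Agent.H560R3.GB.tuple_transfer 1 2 1 (1 / 2) one_pos (by norm_num)
  refine ⟨2 * (N1 + N2 + 100), fun n hn E hE hdeg => ?_⟩
  obtain ⟨N, hN⟩ : ∃ N, N = n / 2 := ⟨_, rfl⟩
  have hN1' : N1 ≤ N := by omega
  have hN2' : N2 ≤ N := by omega
  have hN100 : 100 ≤ N := by omega
  have h3N : n ≤ 3 * N := by omega
  have h2N : 2 * N ≤ n := by omega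
  have hNr : (100 : ℝ) ≤ N := by exact_mod_cast hN100
  have hN0 : (0 : ℝ) < N := by linarith
  have hn0 : (0 : ℝ) < n := by
    have : (2 : ℝ) * N ≤ n := by exact_mod_cast h2N
    linarith
  have hnN : (N : ℝ) ≤ n := by
    have : (2 : ℝ) * N ≤ n := by exact_mod_cast h2N
    linarith
  have hn3 : (n : ℝ) ≤ 3 * N := by exact_mod_cast h3N
  have hlN1 : 1 ≤ Real.log N := by
    rw [Real.le_log_iff_exp_le hN0]
    have := Real.exp_one_lt_d9
    linarith
  have hlN0 : 0 < Real.log N := by linarith
  have hlog1 : Real.log N ≤ Real.log n := Real.log_le_log hN0 hnN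
  have hln0 : 0 < Real.log n := hlN0.trans_le hlog1
  have hlog2 : Real.log n ≤ 2 * Real.log N := by
    calc Real.log n ≤ Real.log ((N : ℝ) ^ 2) := Real.log_le_log hn0 (by nlinarith)
      _ = 2 * Real.log N := by rw [Real.log_pow]; norm_num
  have key := hN1 N hN1' (fun _ => N) (fun _ m => 2 * m) (fun _ => by omega)
    (fun _ m hm => Nat.mul_le_mul_left 2 (mem_Icc.1 hm).2) (fun _ => by
      have h1 : (Pool.Agent.H373R2.T7.energy 1 N (fun m => ((2 * m : ℕ) : ℤ)) : ℝ) ≤ N := by
        exact_mod_cast energy_one N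
      calc (Pool.Agent.H373R2.T7.energy 1 N (fun m => ((2 * m : ℕ) : ℤ)) : ℝ) * N ≤ N * N :=
            mul_le_mul_of_nonneg_right h1 hN0.le
        _ ≤ Real.log N ^ 1 * (N : ℝ) ^ (2 * 1) := by
            have h2 : (N : ℝ) ^ (2 * 1) = N * N := by norm_num [sq]
            rw [pow_one, h2]
            exact le_mul_of_one_le_left (by positivity) hlN1)
  have hcard : E.card ≤ ((Fintype.piFinset (fun _ : Fin 1 => Icc 1 N)).filter (fun m : Fin 1 → ℕ =>
        ¬ ∃ S : ℝ, Filter.Tendsto (fun z => singZ (fun i => ((2 * m i : ℕ) : ℤ)) z) Filter.atTop (nhds S) ∧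
        |tupleCount (fun i => ((2 * m i : ℕ) : ℤ)) N - S * N| ≤ (N : ℝ) / Real.log N ^ (U + 1))).card := by
    apply card_le_card_of_injOn (fun a => fun _ : Fin 1 => a)
    · intro a ha
      rw [mem_coe] at ha
      obtain ⟨h1, h2⟩ := hdeg a ha
      have ha1 := (mem_Icc.1 (hE ha)).1
      rw [mem_coe, mem_filter, Fintype.mem_piFinset]
      refine ⟨fun _ => mem_Icc.2 ⟨ha1, (by omega : a ≤ N)⟩, ?_⟩
      rintro ⟨S, hS, hT⟩
      have h5 := S_ge (a := a) (by omega) hS
      have h6 := one_le_sing (2 * a)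
      have h7 := hN2 N hN2' (fun _ => 2 * a) (fun _ => by omega) S (by linarith) (hT.trans (by
        apply div_le_div_of_nonneg_left hN0.le hlN0
        calc Real.log N = Real.log N ^ 1 := (pow_one _).symm
          _ ≤ Real.log N ^ (U + 1) := pow_le_pow_right₀ hlN1 (by omega)))
      have h8 := (abs_le.1 h7).1
      have h9 : (primeTuples (fun _ : Fin 1 => 2 * a) N : ℝ) ≤ (nbr n a).card := by
        rw [hN]
        exact_mod_cast deg_diff h1
      have h10 := sing_ge_rho (a := a) (by omega)
      have hr := one_le_rho a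
      have h11 : rho a / 2 * (n / 3 / Real.log n ^ 2) ≤ S * (N / Real.log N ^ (1 + 1)) := by
        apply mul_le_mul (h10.trans h5) _ (by positivity) (by linarith)
        apply div_le_div₀ hN0.le (by linarith) (by positivity)
        exact pow_le_pow_left₀ hlN0.le hlog1 _
      have h12 : rho a / 2 * (n / 3 / Real.log n ^ 2) = 1 / 6 * (rho a * (n / Real.log n ^ 2)) := by ring
      rw [h12] at h11
      have h13 : 1 / 64 * rho a * (n / Real.log n ^ 2) = 1 / 64 * (rho a * (n / Real.log n ^ 2)) := by ring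
      rw [h13] at h2
      have h14 : 0 < rho a * (n / Real.log n ^ 2) := by positivity
      linarith
    · intro a _ b _ h
      exact congrFun h 0
  have hcard' : (E.card : ℝ) ≤ (∏ _i : Fin 1, (N : ℝ)) / Real.log N ^ (U + 1) :=
    le_trans (by exact_mod_cast hcard) key
  rw [Fin.prod_const, pow_one] at hcard'
  refine hcard'.trans ?_
  calc (N : ℝ) / Real.log N ^ (U + 1) ≤ N / Real.log N ^ U := by
        apply div_le_div_of_nonneg_left hN0.le (by positivity)
        exact pow_le_pow_right₀ hlN1 (by omega)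
    _ ≤ n / (Real.log n / 2) ^ U := by
        apply div_le_div₀ hn0.le hnN (by positivity)
        exact pow_le_pow_left₀ (by positivity) (by linarith) _
    _ = 2 ^ U * (n / Real.log n ^ U) := by
        rw [div_pow]
        field_simp

/-- almost all vertices have a degree of the expected order -/
theorem deg_all (U : ℕ) : ∃ N0 : ℕ, ∀ n : ℕ, N0 ≤ n →
    (((Icc 1 n).filter fun a => ((nbr n a).card : ℝ) < 1 / 64 * rho a * (n / Real.log n ^ 2)).card : ℝ) ≤
      n / Real.log n ^ U := by
  classical
  obtain ⟨N1, hN1⟩ := deg_large (U + 1)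
  obtain ⟨N2, hN2⟩ := deg_small (U + 1)
  have hlog : Filter.Tendsto (fun n : ℕ => Real.log (n : ℝ)) Filter.atTop Filter.atTop :=
    Real.tendsto_log_atTop.comp tendsto_natCast_atTop_atTop
  obtain ⟨N3, hN3⟩ := Filter.eventually_atTop.1 (hlog.eventually_ge_atTop (1 + 2 ^ (U + 1) : ℝ))
  refine ⟨max N1 (max N2 N3), fun n hn => ?_⟩
  have h1 := hN1 n ((le_max_left _ _).trans hn)
    (((Icc 1 n).filter fun a => ((nbr n a).card : ℝ) < 1 / 64 * rho a * (n / Real.log n ^ 2)).filter
      fun a => n < 2 * a) ((filter_subset _ _).trans (filter_subset _ _))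
    (fun a ha => ⟨(mem_filter.1 ha).2, (mem_filter.1 (mem_filter.1 ha).1).2⟩)
  have h2 := hN2 n (((le_max_left _ _).trans (le_max_right _ _)).trans hn)
    (((Icc 1 n).filter fun a => ((nbr n a).card : ℝ) < 1 / 64 * rho a * (n / Real.log n ^ 2)).filter
      fun a => ¬ n < 2 * a) ((filter_subset _ _).trans (filter_subset _ _))
    (fun a ha => ⟨not_lt.1 (mem_filter.1 ha).2, (mem_filter.1 (mem_filter.1 ha).1).2⟩)
  have h3 := hN3 n (((le_max_right _ _).trans (le_max_right _ _)).trans hn)
  have h4 := card_filter_add_card_filter_not (s := (Icc 1 n).filter fun a =>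
    ((nbr n a).card : ℝ) < 1 / 64 * rho a * (n / Real.log n ^ 2)) (fun a => n < 2 * a)
  have h5 : (0 : ℝ) < 2 ^ (U + 1) := by positivity
  have hl : 0 < Real.log n := by linarith
  have hn0 : (0 : ℝ) ≤ n := Nat.cast_nonneg _
  rw [← h4]
  push_cast
  calc _ ≤ n / Real.log n ^ (U + 1) + 2 ^ (U + 1) * (n / Real.log n ^ (U + 1)) := add_le_add h1 h2
    _ = (1 + 2 ^ (U + 1)) / Real.log n * (n / Real.log n ^ U) := by
        rw [pow_succ (Real.log n)]
        field_simp
    _ ≤ 1 * (n / Real.log n ^ U) := by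
        apply mul_le_mul_of_nonneg_right _ (by positivity)
        rw [div_le_one hl]
        exact h3
    _ = _ := one_mul _

end Pool.Agent.V1153.GG
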