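import Mathlib
import Pool.Agent.V1153.GG.Frm

/-!
Graphs on even numbers: `a` and `b` are adjacent if `(a + b) / 2` and `|a - b| / 2` are in a given set.
-/

set_option autoImplicit false

namespace Pool.Agent.V1153.GG

open SimpleGraph

/-- The graph with the vertices `a`, `V a`, in which `a ≠ b` are adjacent if `(a + b) / 2` and
`|a - b| / 2` satisfy `A`. -/
def graph (V A : ℕ → Prop) : SimpleGraph {a : ℕ // V a} where
  Adj a b := a ≠ b ∧ A ((a.1 + b.1) / 2) ∧ A (((a.1 : ℤ) - b.1).natAbs / 2)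
  symm := ⟨by
    rintro a b ⟨h1, h2, h3⟩
    refine ⟨h1.symm, by rwa [add_comm], ?_⟩
    rwa [← Int.natAbs_neg, neg_sub]⟩
  loopless := ⟨fun a h => h.1 rfl⟩

/-- there is a walk of length at most `k` -/
def Wk {V : Type} (G : SimpleGraph V) (k : ℕ) (a b : V) : Prop := ∃ p : G.Walk a b, p.length ≤ k

theorem Wk.refl {V : Type} {G : SimpleGraph V} (a : V) : Wk G 0 a a := ⟨Walk.nil, le_rfl⟩

theorem Wk.adj {V : Type} {G : SimpleGraph V} {a b : V} (h : G.Adj a b) : Wk G 1 a b :=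
  ⟨h.toWalk, le_rfl⟩

theorem Wk.trans {V : Type} {G : SimpleGraph V} {k l : ℕ} {a b c : V} (h1 : Wk G k a b)
    (h2 : Wk G l b c) : Wk G (k + l) a c := by
  obtain ⟨p, hp⟩ := h1
  obtain ⟨q, hq⟩ := h2
  exact ⟨p.append q, by rw [Walk.length_append]; omega⟩

theorem Wk.symm {V : Type} {G : SimpleGraph V} {k : ℕ} {a b : V} (h : Wk G k a b) : Wk G k b a := by
  obtain ⟨p, hp⟩ := h
  exact ⟨p.reverse, by rwa [Walk.length_reverse]⟩

theorem Wk.mono {V : Type} {G : SimpleGraph V} {k l : ℕ} {a b : V} (h : Wk G k a b) (hkl : k ≤ l) :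
    Wk G l a b := by
  obtain ⟨p, hp⟩ := h
  exact ⟨p, hp.trans hkl⟩

theorem par1 {k l m : ℕ} (h : k % 2 = l % 2) (h2 : m % 2 ≠ k % 2) : (m + 3) % 2 = l % 2 := by omega

theorem par2 {k l m m' : ℕ} (h : ¬ k % 2 = l % 2) (h2 : m % 2 ≠ k % 2) (h3 : m' % 2 ≠ l % 2) :
    (m + 3) % 2 = m' % 2 := by omega

theorem par3 {k s m : ℕ} (h : s % 2 ≠ k % 2) (h2 : m % 2 ≠ s % 2) : k % 2 = m % 2 := by omega

theorem par4 {k l s m : ℕ} (h : ¬ k % 2 = l % 2) (h1 : s % 2 ≠ k % 2) (h2 : m % 2 ≠ s % 2) :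
    (m + 3) % 2 = l % 2 := by omega

theorem par5 {k l m : ℕ} (h : ¬ k % 2 = l % 2) (h2 : m % 2 ≠ k % 2) : m % 2 = l % 2 := by omega

/-- The upper bound. -/
theorem upper : ∃ K N : ℕ, ∀ n : ℕ, N ≤ n → ∀ y : ℕ, y ^ K ≤ n → ∀ V A : ℕ → Prop,
    (∀ a, V a → Even a ∧ a ≤ 2 * n) → (∀ a, Even a → 2 ≤ a → a ≤ 2 * n → V a) →
    (∀ m, Adm n y m → A m) → ∀ a b : {a : ℕ // V a}, Wk (graph V A) 5 a b := by
  obtain ⟨K1, N1, hK1, hN1⟩ := common
  obtain ⟨K2, N2, hK2, hN2⟩ := exc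
  refine ⟨max K1 K2, max (max N1 N2) (2 ^ (max K1 K2) + 6), fun n hn y hy V A hV1 hV2 hA => ?_⟩
  have hn5 : 6 ≤ n := (Nat.le_add_left 6 _).trans ((le_max_right _ _).trans hn)
  -- enlarge `y`
  obtain ⟨z, hz⟩ : ∃ z, z = max y 2 := ⟨_, rfl⟩
  have hzK : z ^ (max K1 K2) ≤ n := by
    rcases le_total y 2 with h | h
    · rw [hz, max_eq_right h]
      exact le_trans (by omega) ((le_max_right _ _).trans hn)
    · rw [hz, max_eq_left h]
      exact hy
  have hz2 : 2 ≤ z := hz ▸ le_max_right _ _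
  have hyz : y ≤ z := hz ▸ le_max_left _ _
  have hAz : ∀ m, Adm n z m → A m := by
    rintro m ⟨h1, h2, h3⟩
    exact hA m ⟨h1, h2, h3.imp id fun h => ⟨h.1, fun p hp hpm => lt_of_le_of_lt hyz (h.2 p hp hpm)⟩⟩
  have hzK1 : z ^ K1 ≤ n := (Nat.pow_le_pow_right (by omega) (le_max_left _ _)).trans hzK
  have hzK2 : z ^ K2 ≤ n := (Nat.pow_le_pow_right (by omega) (le_max_right _ _)).trans hzK
  have hC := hN1 n (le_trans (le_trans (le_max_left _ _) (le_max_left _ _)) hn) z hz2 hzK1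
  have hE := hN2 n (le_trans (le_trans (le_max_right _ _) (le_max_left _ _)) hn) z hz2 hzK2
  clear hN1 hN2
  -- vertices
  have hvx : ∀ b : ℕ, 1 ≤ b → b ≤ n → V (2 * b) := fun b h1 h2 =>
    hV2 _ (even_two_mul b) (by omega) (by omega)
  have hhalf : ∀ a : {a : ℕ // V a}, ∃ k : ℕ, k ≤ n ∧ a.1 = 2 * k := by
    intro a
    obtain ⟨⟨k, hk⟩, h2⟩ := hV1 a.1 a.2
    exact ⟨k, by omega, by omega⟩
  have hadj : ∀ (a b : {a : ℕ // V a}) (k l : ℕ), a.1 = 2 * k → b.1 = 2 * l → Adm n z (k + l) →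
      Adm n z ((k : ℤ) - l).natAbs → (graph V A).Adj a b := by
    intro a b k l hk hl h1 h2
    refine ⟨?_, ?_, ?_⟩
    · rintro rfl
      have h3 : k = l := by omega
      rw [h3, sub_self] at h2
      have := h2.1
      simp at this
    · rw [hk, hl, ← mul_add, Nat.mul_div_cancel_left _ (by norm_num)]
      exact hAz _ h1
    · have h3 : ((a.1 : ℤ) - b.1).natAbs = 2 * ((k : ℤ) - l).natAbs := by
        rw [hk, hl]
        push_cast
        rw [← mul_sub, Int.natAbs_mul]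
        rfl
      rw [h3, Nat.mul_div_cancel_left _ (by norm_num)]
      exact hAz _ h2
  -- vertices of the same type
  have same : ∀ (a c : {a : ℕ // V a}) (k l : ℕ), a.1 = 2 * k → c.1 = 2 * l → k ≤ n → l ≤ n →
      k % 2 = l % 2 → (3 ∣ k ↔ 3 ∣ l) → Wk (graph V A) 2 a c := by
    intro a c k l hk hl hkn hln h2 h3
    obtain ⟨b, hb1, hbn, -, -, h4, h5, h6, h7⟩ := hC k l hkn hln h2 h3
    have hb : (graph V A).Adj a ⟨2 * b, hvx b hb1 (by omega)⟩ := hadj _ _ k b hk rfl h4 h5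
    have hb' : (graph V A).Adj c ⟨2 * b, hvx b hb1 (by omega)⟩ := hadj _ _ l b hl rfl h6 h7
    exact (Wk.adj hb).trans (Wk.adj hb'.symm)
  -- a neighbour of the other type
  have nb : ∀ (a : {a : ℕ // V a}) (k : ℕ), a.1 = 2 * k → k ≤ n → ∃ (b : {a : ℕ // V a}) (l : ℕ),
      b.1 = 2 * l ∧ l ≤ n ∧ l % 2 ≠ k % 2 ∧ (3 ∣ l ↔ ¬ 3 ∣ k) ∧ Wk (graph V A) 1 a b := by
    intro a k hk hkn
    obtain ⟨b, hb1, hbn, h2, h3, h4, h5, -, -⟩ := hC k k hkn hkn rfl Iff.rfl
    exact ⟨⟨2 * b, hvx b hb1 (by omega)⟩, b, rfl, by omega, h2, h3,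
      Wk.adj (hadj _ _ k b hk rfl h4 h5)⟩
  -- the exceptional edges
  have h3p : Adm n z 3 := ⟨by decide, by omega, Or.inl Nat.prime_three⟩
  have ex : ∀ (a : {a : ℕ // V a}) (k : ℕ), a.1 = 2 * k → k ≤ n → 3 ∣ k →
      ∃ (b c : {a : ℕ // V a}) (l : ℕ), b.1 = 2 * l ∧ c.1 = 2 * (l + 3) ∧ l + 3 ≤ n ∧ ¬ 3 ∣ l ∧
        l % 2 ≠ k % 2 ∧ Wk (graph V A) 1 a b ∧ Wk (graph V A) 1 b c := by
    intro a k hk hkn h3
    obtain ⟨b, hb1, hbn, h4, h5, h6, h7, h8⟩ := hE k hkn h3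
    refine ⟨⟨2 * b, hvx b hb1 (by omega)⟩, ⟨2 * (b + 3), hvx (b + 3) (by omega) (by omega)⟩, b, rfl,
      rfl, hbn, h4, h5, Wk.adj (hadj _ _ k b hk rfl h6 h7), Wk.adj (hadj _ _ b (b + 3) rfl rfl ?_ ?_)⟩
    · have h9 : b + (b + 3) = 2 * b + 3 := by ring
      rw [h9]
      exact h8
    · have h9 : ((b : ℤ) - ((b + 3 : ℕ) : ℤ)).natAbs = 3 := by omega
      rw [h9]
      exact h3p
  -- a vertex divisible by three and one not divisible by three
  have mixed : ∀ (a c : {a : ℕ // V a}) (k l : ℕ), a.1 = 2 * k → c.1 = 2 * l → k ≤ n → l ≤ n →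
      3 ∣ k → ¬ 3 ∣ l → Wk (graph V A) 5 a c := by
    intro a c k l hk hl hkn hln h3k h3l
    by_cases hpar : k % 2 = l % 2
    · obtain ⟨b, b', m, hb, hb', hm, h3m, h2m, w1, w2⟩ := ex a k hk hkn h3k
      have w3 := same b' c (m + 3) l hb' hl hm hln (par1 hpar h2m)
        ⟨fun h => absurd ((Nat.dvd_add_left (dvd_refl 3)).1 h) h3m, fun h => absurd h h3l⟩
      exact ((w1.trans w2).trans w3).mono (by norm_num)
    · obtain ⟨b, m, hb, hm, h2m, h3m, w1⟩ := nb a k hk hkn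
      have w2 := same b c m l hb hl hm hln (par5 hpar h2m) (by
        constructor
        · intro h
          exact absurd h3k (h3m.1 h)
        · intro h
          exact absurd h h3l)
      exact (w1.trans w2).mono (by norm_num)
  intro a c
  obtain ⟨k, hkn, hk⟩ := hhalf a
  obtain ⟨l, hln, hl⟩ := hhalf c
  by_cases h3k : 3 ∣ k
  · by_cases h3l : 3 ∣ l
    · by_cases hpar : k % 2 = l % 2
      · exact (same a c k l hk hl hkn hln hpar (by tauto)).mono (by norm_num)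
      · obtain ⟨b, b', m, hb, hb', hm, h3m, h2m, w1, w2⟩ := ex a k hk hkn h3k
        obtain ⟨d, m', hd, hm', h2m', h3m', w4⟩ := nb c l hl hln
        have w3 := same b' d (m + 3) m' hb' hd hm hm' (par2 hpar h2m h2m') (by
          constructor
          · intro h
            exact absurd ((Nat.dvd_add_left (dvd_refl 3)).1 h) h3m
          · intro h
            exact absurd h3l (h3m'.1 h))
        exact (((w1.trans w2).trans w3).trans w4.symm).mono (by norm_num)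
    · exact mixed a c k l hk hl hkn hln h3k h3l
  · by_cases h3l : 3 ∣ l
    · exact (mixed c a l k hl hk hln hkn h3l h3k).symm
    · by_cases hpar : k % 2 = l % 2
      · exact (same a c k l hk hl hkn hln hpar (by tauto)).mono (by norm_num)
      · -- two vertices prime to three of different parity
        obtain ⟨s, hs1, hs2, hs3, hs4⟩ : ∃ s : ℕ, 1 ≤ s ∧ s ≤ n ∧ 3 ∣ s ∧ s % 2 ≠ k % 2 := by
          rcases Nat.mod_two_eq_zero_or_one k with h | h
          · exact ⟨3, by omega, by omega, by omega, by omega⟩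
          · exact ⟨6, by omega, by omega, by omega, by omega⟩
        obtain ⟨b, b', m, hb, hb', hm, h3m, h2m, -, w2⟩ := ex ⟨2 * s, hvx s hs1 hs2⟩ s rfl hs2 hs3
        have w1 := same a b k m hk hb hkn (by omega) (par3 hs4 h2m) (by tauto)
        have w3 := same b' c (m + 3) l hb' hl hm hln (par4 hpar hs4 h2m) (by
          constructor
          · intro h
            exact absurd ((Nat.dvd_add_left (dvd_refl 3)).1 h) h3m
          · intro h
            exact absurd h h3l)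
        exact (w1.trans w2).trans w3

end Pool.Agent.V1153.GG
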