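import Mathlib
import Pool.Agent.V1153.GG.Up

/-!
The second moment of the number of common neighbours.
-/

set_option autoImplicit false

namespace Pool.Agent.V1153.GG

open Finset

theorem inj_sum_le {S T : Finset ℕ} (g : ℕ → ℕ) (f : ℕ → ℝ) (hf : ∀ m, 0 ≤ f m)
    (hg : ∀ c ∈ S, g c ∈ T) (hi : ∀ c ∈ S, ∀ d ∈ S, g c = g d → c = d) :
    ∑ c ∈ S, f (g c) ≤ ∑ m ∈ T, f m := by
  classical
  rw [← sum_image (f := f) (g := g) hi]
  apply sum_le_sum_of_subset_of_nonneg
  · intro m hm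
    obtain ⟨c, hc, rfl⟩ := mem_image.1 hm
    exact hg c hc
  · intro m _ _
    exact hf m

theorem amgm {u v w : ℝ} (hu : 0 ≤ u) (hv : 0 ≤ v) (hw : 0 ≤ w) :
    u * v * w ≤ (u ^ 3 + v ^ 3 + w ^ 3) / 3 := by
  have h1 : u ^ 3 + v ^ 3 + w ^ 3 - 3 * (u * v * w) =
      (u + v + w) * ((u - v) ^ 2 + (v - w) ^ 2 + (w - u) ^ 2) / 2 := by ring
  have h2 : 0 ≤ (u + v + w) * ((u - v) ^ 2 + (v - w) ^ 2 + (w - u) ^ 2) / 2 := by positivity
  linarith

/-- the average of the singular factors -/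
theorem avg3 : ∃ C : ℝ, 0 < C ∧ ∀ n a : ℕ, 1 ≤ a → a ≤ n →
    ∑ c ∈ (Icc 1 n).erase a, (rho c * rho ((c : ℤ) - a).natAbs * rho (c + a)) ^ 4 ≤ C * n := by
  classical
  obtain ⟨C, hC, hav⟩ := rho_avg 12
  refine ⟨5 * C, by positivity, fun n a ha1 han => ?_⟩
  have hn0 : (0 : ℝ) ≤ n := Nat.cast_nonneg _
  have h0 : ∀ m, 0 ≤ rho m ^ 12 := fun m => pow_nonneg (zero_le_one.trans (one_le_rho m)) _
  have h1 : ∀ c ∈ (Icc 1 n).erase a, (rho c * rho ((c : ℤ) - a).natAbs * rho (c + a)) ^ 4 ≤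
      (rho c ^ 12 + rho ((c : ℤ) - a).natAbs ^ 12 + rho (c + a) ^ 12) / 3 := by
    intro c _
    have r1 := zero_le_one.trans (one_le_rho c)
    have r2 := zero_le_one.trans (one_le_rho ((c : ℤ) - a).natAbs)
    have r3 := zero_le_one.trans (one_le_rho (c + a))
    have := amgm (pow_nonneg r1 4) (pow_nonneg r2 4) (pow_nonneg r3 4)
    rw [mul_pow, mul_pow]
    refine this.trans (le_of_eq ?_)
    ring
  refine (sum_le_sum h1).trans ?_
  rw [← sum_div, sum_add_distrib, sum_add_distrib]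
  have s1 : ∑ c ∈ (Icc 1 n).erase a, rho c ^ 12 ≤ C * n :=
    (sum_le_sum_of_subset_of_nonneg (erase_subset _ _) fun m _ _ => h0 m).trans (hav n)
  have s3 : ∑ c ∈ (Icc 1 n).erase a, rho (c + a) ^ 12 ≤ C * (2 * n) := by
    have h2 := inj_sum_le (S := (Icc 1 n).erase a) (T := Icc 1 (2 * n)) (fun c => c + a)
      (fun m => rho m ^ 12) h0 (fun c hc => by
        rw [mem_erase, mem_Icc] at hc
        rw [mem_Icc]
        omega) (fun c _ d _ h => by
        omega)
    refine h2.trans ((hav (2 * n)).trans (le_of_eq ?_))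
    push_cast
    ring
  have s2 : ∑ c ∈ (Icc 1 n).erase a, rho ((c : ℤ) - a).natAbs ^ 12 ≤ C * n + C * n := by
    have hsplit : (Icc 1 n).erase a = Ico 1 a ∪ Ioc a n := by
      ext c
      simp only [mem_erase, mem_Icc, mem_union, mem_Ico, mem_Ioc]
      omega
    have hdis : Disjoint (Ico 1 a) (Ioc a n) := by
      rw [disjoint_left]
      intro c hc hc'
      rw [mem_Ico] at hc
      rw [mem_Ioc] at hc'
      omega
    rw [hsplit, sum_union hdis]
    apply add_le_add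
    · refine (inj_sum_le (S := Ico 1 a) (T := Icc 1 n) (fun c => ((c : ℤ) - a).natAbs)
        (fun m => rho m ^ 12) h0 (fun c hc => by
          rw [mem_Ico] at hc
          rw [mem_Icc]
          omega) (fun c hc d hd h => by
          rw [mem_Ico] at hc hd
          omega)).trans (hav n)
    · refine (inj_sum_le (S := Ioc a n) (T := Icc 1 n) (fun c => ((c : ℤ) - a).natAbs)
        (fun m => rho m ^ 12) h0 (fun c hc => by
          rw [mem_Ioc] at hc
          rw [mem_Icc]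
          omega) (fun c hc d hd h => by
          rw [mem_Ioc] at hc hd
          omega)).trans (hav n)
  have h5 : C * n + (C * n + C * n) + C * (2 * n) = 5 * C * n := by ring
  have h6 : 0 ≤ 5 * C * n := by positivity
  linarith

/-- the second moment -/
theorem second : ∃ (C : ℝ) (N0 : ℕ), 0 < C ∧ ∀ n : ℕ, N0 ≤ n → ∀ a : ℕ, 1 ≤ a → a ≤ n →
    ∑ c ∈ Icc 1 n, ((nbr n a ∩ nbr n c).card : ℝ) ^ 2 ≤ C * rho a ^ 2 * (n ^ 3 / Real.log n ^ 8) := by
  classical
  obtain ⟨C1, N1, hC1, hcn⟩ := cn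
  obtain ⟨C2, hC2, hav⟩ := avg3
  obtain ⟨N2, hN2⟩ := ev_log 1 8
  refine ⟨C1 ^ 2 * C2 + 1, max (max N1 N2) 3, by positivity, fun n hn a ha1 han => ?_⟩
  have hn1 : N1 ≤ n := ((le_max_left _ _).trans (le_max_left _ _)).trans hn
  have hn2 : N2 ≤ n := ((le_max_right _ _).trans (le_max_left _ _)).trans hn
  have hn3 : 3 ≤ n := (le_max_right _ _).trans hn
  have hnr : (3 : ℝ) ≤ n := by exact_mod_cast hn3
  have hn0 : (0 : ℝ) < n := by linarith
  have hln : 0 < Real.log n := Real.log_pos (by linarith)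
  have h8 := hN2 n hn2
  rw [one_mul] at h8
  have hra := one_le_rho a
  have ha : a ∈ Icc 1 n := mem_Icc.2 ⟨ha1, han⟩
  rw [← add_sum_erase _ _ ha]
  -- the diagonal term
  have d1 : ((nbr n a ∩ nbr n a).card : ℝ) ^ 2 ≤ rho a ^ 2 * (n ^ 3 / Real.log n ^ 8) := by
    have h1 : ((nbr n a ∩ nbr n a).card : ℝ) ≤ n := by
      rw [inter_self]
      have : (nbr n a).card ≤ n := by
        calc (nbr n a).card ≤ (Icc 1 n).card := card_le_card (filter_subset _ _)
          _ = n := by rw [Nat.card_Icc]; omega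
      exact_mod_cast this
    have h2 : Real.log n ^ 8 ≤ n := by
      refine h8.trans ?_
      rw [Real.sqrt_le_left hn0.le]
      nlinarith
    calc ((nbr n a ∩ nbr n a).card : ℝ) ^ 2 ≤ n ^ 2 := pow_le_pow_left₀ (Nat.cast_nonneg _) h1 _
      _ ≤ n ^ 3 / Real.log n ^ 8 := by
          rw [le_div_iff₀ (by positivity)]
          calc (n : ℝ) ^ 2 * Real.log n ^ 8 ≤ n ^ 2 * n := mul_le_mul_of_nonneg_left h2 (by positivity)
            _ = n ^ 3 := by ring
      _ ≤ _ := le_mul_of_one_le_left (by positivity) (one_le_pow₀ hra)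
  -- the other terms
  have d2 : ∑ c ∈ (Icc 1 n).erase a, ((nbr n a ∩ nbr n c).card : ℝ) ^ 2 ≤
      C1 ^ 2 * C2 * rho a ^ 2 * (n ^ 3 / Real.log n ^ 8) := by
    calc ∑ c ∈ (Icc 1 n).erase a, ((nbr n a ∩ nbr n c).card : ℝ) ^ 2 ≤
        ∑ c ∈ (Icc 1 n).erase a, (C1 * (n / Real.log n ^ 4) * rho a) ^ 2 *
          (rho c * rho ((c : ℤ) - a).natAbs * rho (c + a)) ^ 4 := by
          refine sum_le_sum fun c hc => ?_
          rw [mem_erase, mem_Icc] at hc
          have h1 := hcn n hn1 a c ha1 han hc.2.1 hc.2.2 hc.1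
          calc ((nbr n a ∩ nbr n c).card : ℝ) ^ 2 ≤ (C1 * (n / Real.log n ^ 4) *
              (rho a * (rho c * rho ((c : ℤ) - a).natAbs * rho (c + a)) ^ 2)) ^ 2 :=
                pow_le_pow_left₀ (Nat.cast_nonneg _) h1 _
            _ = _ := by ring
      _ = (C1 * (n / Real.log n ^ 4) * rho a) ^ 2 * ∑ c ∈ (Icc 1 n).erase a,
          (rho c * rho ((c : ℤ) - a).natAbs * rho (c + a)) ^ 4 := by rw [mul_sum]
      _ ≤ (C1 * (n / Real.log n ^ 4) * rho a) ^ 2 * (C2 * n) :=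
          mul_le_mul_of_nonneg_left (hav n a ha1 han) (by positivity)
      _ = _ := by
          rw [mul_pow, mul_pow, div_pow, ← pow_mul]
          ring
  calc _ ≤ rho a ^ 2 * (n ^ 3 / Real.log n ^ 8) + C1 ^ 2 * C2 * rho a ^ 2 * (n ^ 3 / Real.log n ^ 8) :=
        add_le_add d1 d2
    _ = _ := by ring

end Pool.Agent.V1153.GG
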