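import Mathlib
import Pool.Agent.V1153.GG.Sm
import Pool.Agent.V1153.GG.De
import Pool.Agent.V1153.GG.Gr

/-!
Almost all vertices of the Goldbach graph have a positive proportion of all vertices at distance two.
-/

set_option autoImplicit false

namespace Pool.Agent.V1153.GG

open Finset

/-- the vertices of `X` which have a common neighbour in `X` with `a` -/
def two (n : ℕ) (X : Finset ℕ) (a : ℕ) : Finset ℕ := X.filter fun c => (nbr n a ∩ nbr n c ∩ X).Nonempty

theorem nbr_symm {n b c : ℕ} (hb : b ∈ Icc 1 n) (hc : c ∈ Icc 1 n) : b ∈ nbr n c ↔ c ∈ nbr n b := by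
  rw [mem_Icc] at hb hc
  rw [mem_nbr, mem_nbr, add_comm b c]
  have : ((c : ℤ) - b).natAbs = ((b : ℤ) - c).natAbs := by omega
  rw [this]
  tauto

/-- the number of walks of length two -/
theorem walks {n : ℕ} {X : Finset ℕ} (hX : X ⊆ Icc 1 n) (a : ℕ) :
    ∑ c ∈ X, (nbr n a ∩ nbr n c ∩ X).card = ∑ b ∈ nbr n a ∩ X, (nbr n b ∩ X).card := by
  classical
  have h1 : ∀ c ∈ X, (nbr n a ∩ nbr n c ∩ X).card = ∑ b ∈ nbr n a ∩ X, if b ∈ nbr n c then 1 else 0 := by
    intro c _
    rw [← card_filter]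
    congr 1
    ext b
    simp only [mem_inter, mem_filter]
    tauto
  rw [sum_congr rfl h1, sum_comm]
  refine sum_congr rfl fun b hb => ?_
  rw [← card_filter]
  congr 1
  ext c
  rw [mem_filter, mem_inter]
  rw [mem_inter] at hb
  have hb' : b ∈ Icc 1 n := hX hb.2
  constructor
  · rintro ⟨hc, h⟩
    exact ⟨(nbr_symm hb' (hX hc)).1 h, hc⟩
  · rintro ⟨h, hc⟩
    exact ⟨hc, (nbr_symm hb' (hX hc)).2 h⟩

/-- almost all vertices have a positive proportion of all vertices at distance two, even if the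
exceptional vertices are deleted -/
theorem two_large : ∃ δ : ℝ, 0 < δ ∧ ∀ U : ℕ, ∃ N0 : ℕ, ∀ n : ℕ, N0 ≤ n → ∃ X : Finset ℕ,
    X ⊆ Icc 1 n ∧ ((Icc 1 n \ X).card : ℝ) ≤ n / Real.log n ^ U ∧
      ∀ a ∈ X, δ * n ≤ (two n X a).card := by
  classical
  obtain ⟨C, N1, hC, hsec⟩ := second
  refine ⟨1 / (16384 ^ 2 * C), by positivity, fun U => ?_⟩
  obtain ⟨N2, hN2⟩ := deg_all (U + 3)
  have hlog : Filter.Tendsto (fun n : ℕ => Real.log (n : ℝ)) Filter.atTop Filter.atTop :=
    Real.tendsto_log_atTop.comp tendsto_natCast_atTop_atTop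
  obtain ⟨N3, hN3⟩ := Filter.eventually_atTop.1 (hlog.eventually_ge_atTop (128 : ℝ))
  refine ⟨max N1 (max N2 N3), fun n hn => ?_⟩
  have hn1 := (le_max_left _ _).trans hn
  have hn2 := ((le_max_left _ _).trans (le_max_right _ _)).trans hn
  have hL := hN3 n (((le_max_right _ _).trans (le_max_right _ _)).trans hn)
  have hE := hN2 n hn2
  obtain ⟨E, hEd⟩ : ∃ E, E = (Icc 1 n).filter fun a =>
    ((nbr n a).card : ℝ) < 1 / 64 * rho a * (n / Real.log n ^ 2) := ⟨_, rfl⟩
  rw [← hEd] at hE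
  obtain ⟨L, hLd⟩ : ∃ L, L = Real.log n := ⟨_, rfl⟩
  rw [← hLd] at hL hE hEd
  have hL0 : 0 < L := by linarith
  have hL1 : 1 ≤ L := by linarith
  have hn0 : (0 : ℝ) < n := by
    by_contra h
    have h0 : (n : ℝ) = 0 := le_antisymm (not_lt.1 h) (Nat.cast_nonneg _)
    rw [h0, Real.log_zero] at hLd
    linarith
  have hEs : E ⊆ Icc 1 n := hEd ▸ filter_subset _ _
  refine ⟨Icc 1 n \ E, sdiff_subset, ?_, fun a ha => ?_⟩
  · rw [Finset.sdiff_sdiff_eq_self hEs, ← hLd]
    refine hE.trans ?_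
    apply div_le_div_of_nonneg_left hn0.le (by positivity)
    exact pow_le_pow_right₀ hL1 (by omega)
  · obtain ⟨X, hXd⟩ : ∃ X, X = Icc 1 n \ E := ⟨_, rfl⟩
    rw [← hXd] at ha ⊢
    have hXs : X ⊆ Icc 1 n := hXd ▸ sdiff_subset
    have hE3 : (E.card : ℝ) ≤ 1 / 128 * (n / L ^ 2) := by
      refine hE.trans ?_
      calc (n : ℝ) / L ^ (U + 3) ≤ n / L ^ 3 := by
            apply div_le_div_of_nonneg_left hn0.le (by positivity)
            exact pow_le_pow_right₀ hL1 (by omega)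
        _ = 1 / L * (n / L ^ 2) := by
            field_simp
        _ ≤ 1 / 128 * (n / L ^ 2) := by
            apply mul_le_mul_of_nonneg_right _ (by positivity)
            exact one_div_le_one_div_of_le (by norm_num) hL
    have hgood : ∀ b ∈ X, 1 / 128 * rho b * (n / L ^ 2) ≤ (nbr n b ∩ X).card := by
      intro b hb
      rw [hXd, mem_sdiff] at hb
      have h1 := hb.2
      rw [hEd, mem_filter, not_and, not_lt] at h1
      have h2 := h1 hb.1
      have h3 : nbr n b ⊆ (nbr n b ∩ X) ∪ E := by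
        intro c hc
        rw [mem_union, mem_inter]
        by_cases hcE : c ∈ E
        · exact Or.inr hcE
        · refine Or.inl ⟨hc, ?_⟩
          rw [hXd, mem_sdiff]
          exact ⟨(mem_filter.1 hc).1, hcE⟩
      have h4 : ((nbr n b).card : ℝ) ≤ ((nbr n b ∩ X).card : ℝ) + E.card := by
        exact_mod_cast (card_le_card h3).trans (card_union_le _ _)
      have h5 := one_le_rho b
      have h6 : 1 / 128 * (n / L ^ 2) ≤ 1 / 128 * rho b * (n / L ^ 2) := by
        have h7 : 0 ≤ n / L ^ 2 := by positivity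
        nlinarith
      have h8 : 1 / 64 * rho b * (n / L ^ 2) = 1 / 128 * rho b * (n / L ^ 2) + 1 / 128 * rho b * (n / L ^ 2) := by
        ring
      linarith
    have hda := hgood a ha
    have hra := one_le_rho a
    have ha' := mem_Icc.1 (hXs ha)
    have hs := hsec n hn1 a ha'.1 ha'.2
    rw [← hLd] at hs
    -- the number of walks
    have hw : rho a * n ^ 2 / (16384 * L ^ 4) ≤ ∑ c ∈ X, ((nbr n a ∩ nbr n c ∩ X).card : ℝ) := by
      have h1 : (∑ c ∈ X, ((nbr n a ∩ nbr n c ∩ X).card : ℝ)) = ∑ b ∈ nbr n a ∩ X, ((nbr n b ∩ X).card : ℝ) := by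
        exact_mod_cast walks hXs a
      rw [h1]
      have h2 : ∑ b ∈ nbr n a ∩ X, (1 / 128 * (n / L ^ 2)) ≤ ∑ b ∈ nbr n a ∩ X, ((nbr n b ∩ X).card : ℝ) := by
        refine sum_le_sum fun b hb => ?_
        rw [mem_inter] at hb
        have h3 := hgood b hb.2
        have h4 := one_le_rho b
        refine le_trans ?_ h3
        have h5 : 0 ≤ n / L ^ 2 := by positivity
        nlinarith
      refine le_trans ?_ h2
      rw [sum_const, nsmul_eq_mul]
      calc rho a * n ^ 2 / (16384 * L ^ 4) = 1 / 128 * rho a * (n / L ^ 2) * (1 / 128 * (n / L ^ 2)) := by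
            field_simp
            norm_num
        _ ≤ _ := mul_le_mul_of_nonneg_right hda (by positivity)
    -- Cauchy-Schwarz
    have hsup : ∑ c ∈ X, ((nbr n a ∩ nbr n c ∩ X).card : ℝ) =
        ∑ c ∈ two n X a, ((nbr n a ∩ nbr n c ∩ X).card : ℝ) := by
      symm
      apply sum_subset (filter_subset _ _)
      intro c hc hc2
      unfold two at hc2
      rw [mem_filter, not_and, not_nonempty_iff_eq_empty] at hc2
      rw [hc2 hc, card_empty, Nat.cast_zero]
    have hcs := sq_sum_le_card_mul_sum_sq (s := two n X a) (f := fun c => ((nbr n a ∩ nbr n c ∩ X).card : ℝ))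
    have h2 : ∑ c ∈ two n X a, ((nbr n a ∩ nbr n c ∩ X).card : ℝ) ^ 2 ≤
        ∑ c ∈ Icc 1 n, ((nbr n a ∩ nbr n c).card : ℝ) ^ 2 := by
      refine (sum_le_sum_of_subset_of_nonneg ((filter_subset _ _).trans hXs) fun _ _ _ => by positivity).trans ?_
      refine sum_le_sum fun c _ => ?_
      have h3 : ((nbr n a ∩ nbr n c ∩ X).card : ℝ) ≤ (nbr n a ∩ nbr n c).card := by
        exact_mod_cast card_le_card inter_subset_left
      exact pow_le_pow_left₀ (Nat.cast_nonneg _) h3 2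
    rw [← hsup] at hcs
    have h3 : (rho a * n ^ 2 / (16384 * L ^ 4)) ^ 2 ≤
        (two n X a).card * (C * rho a ^ 2 * (n ^ 3 / L ^ 8)) := by
      calc (rho a * n ^ 2 / (16384 * L ^ 4)) ^ 2 ≤ (∑ c ∈ X, ((nbr n a ∩ nbr n c ∩ X).card : ℝ)) ^ 2 :=
            pow_le_pow_left₀ (by positivity) hw _
        _ ≤ (two n X a).card * ∑ c ∈ two n X a, ((nbr n a ∩ nbr n c ∩ X).card : ℝ) ^ 2 := hcs
        _ ≤ _ := mul_le_mul_of_nonneg_left (h2.trans hs) (Nat.cast_nonneg _)
    have h4 : (rho a * n ^ 2 / (16384 * L ^ 4)) ^ 2 =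
        (1 / (16384 ^ 2 * C) * n) * (C * rho a ^ 2 * (n ^ 3 / L ^ 8)) := by
      field_simp
    rw [h4] at h3
    exact le_of_mul_le_mul_right h3 (by positivity)

end Pool.Agent.V1153.GG
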