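import Mathlib
import Pool.Agent.V1153.GG.Cov
import Pool.Agent.V1153.GG.Comp

/-!
After deleting few vertices a Goldbach graph has a bounded number of components, of bounded diameter.
-/

set_option autoImplicit false

namespace Pool.Agent.V1153.GG

open SimpleGraph Finset

theorem edge {n a b : ℕ} (h : b ∈ nbr n a) (ha1 : 1 ≤ a) (ha : a ≤ n) : a ≠ b ∧ ((2 * a + 2 * b) / 2).Prime ∧
    Odd ((2 * a + 2 * b) / 2) ∧ (2 * a + 2 * b) / 2 < 2 * n ∧
    (((2 * a : ℕ) : ℤ) - (2 * b : ℕ)).natAbs.Prime = (((2 * a : ℕ) : ℤ) - (2 * b : ℕ)).natAbs.Prime ∧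
    ((((2 * a : ℕ) : ℤ) - (2 * b : ℕ)).natAbs / 2).Prime ∧
    Odd ((((2 * a : ℕ) : ℤ) - (2 * b : ℕ)).natAbs / 2) ∧
    (((2 * a : ℕ) : ℤ) - (2 * b : ℕ)).natAbs / 2 < 2 * n := by
  obtain ⟨⟨h1, h2⟩, h3, h4⟩ := mem_nbr.1 h
  have e1 : (2 * a + 2 * b) / 2 = a + b := by omega
  have e2 : (((2 * a : ℕ) : ℤ) - (2 * b : ℕ)).natAbs / 2 = ((a : ℤ) - b).natAbs := by omega
  have h5 := h4.two_le
  have hne : a ≠ b := by
    rintro rfl
    omega
  have h6 : Odd (a + b) := h3.odd_of_ne_two (by omega)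
  have h7 : Odd ((a : ℤ) - b).natAbs := by
    rw [Int.natAbs_odd, Int.odd_sub']
    rw [Nat.odd_add'] at h6
    exact_mod_cast h6
  have h8 : ((a : ℤ) - b).natAbs < 2 * n := by omega
  have h9 : a + b < 2 * n := by omega
  rw [e1, e2]
  exact ⟨hne, h3, h6, h9, rfl, h4, h7, h8⟩

theorem trans {n : ℕ} {X : Finset ℕ} (hX : X ⊆ Icc 1 n) {δ : ℝ} (hδ : 0 < δ) (hn : 0 < n)
    (h : ∀ a ∈ X, δ * n ≤ (two n X a).card) {k : ℕ} (hk : 5 / δ ≤ k) (V A : ℕ → Prop)
    (hV1 : ∀ a, V a → Even a ∧ a ≤ 2 * n) (hV2 : ∀ a, Even a → 2 ≤ a → a ≤ 2 * n → V a)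
    (hA : ∀ m, m.Prime → Odd m → m < 2 * n → A m) :
    ∃ E : Set {a : ℕ // V a}, E.ncard ≤ (Icc 1 n \ X).card + 1 ∧
      Nat.card ((graph V A).induce Eᶜ).ConnectedComponent ≤ k ∧
      (∀ c : ((graph V A).induce Eᶜ).ConnectedComponent, (n : ℝ) ≤ k * (c.supp.ncard : ℝ)) ∧
      ∀ a b, ((graph V A).induce Eᶜ).Reachable a b → ((graph V A).induce Eᶜ).dist a b ≤ k := by
  classical
  have hfin : Finite {a : ℕ // V a} :=
    Set.Finite.to_subtype ((Set.finite_Iic (2 * n)).subset fun a ha => (hV1 a ha).2)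
  obtain ⟨E, hE⟩ : ∃ E : Set {a : ℕ // V a}, ∀ v, v ∈ E ↔ v.1 / 2 ∉ X :=
    ⟨{v | v.1 / 2 ∉ X}, fun _ => Iff.rfl⟩
  refine ⟨E, ?_, ?_⟩
  · have h1 : E.ncard ≤ (((Icc 1 n \ X) ∪ {0} : Finset ℕ) : Set ℕ).ncard := by
      apply Set.ncard_le_ncard_of_injOn (fun v => v.1 / 2)
      · intro v hv
        rw [hE] at hv
        rw [mem_coe, mem_union, mem_sdiff, mem_Icc, mem_singleton]
        have h2 := hV1 v.1 v.2
        by_cases h3 : v.1 / 2 = 0
        · exact Or.inr h3
        · exact Or.inl ⟨⟨by omega, by omega⟩, hv⟩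
      · intro v _ w _ hvw
        obtain ⟨⟨r, hr⟩, -⟩ := hV1 v.1 v.2
        obtain ⟨⟨s, hs⟩, -⟩ := hV1 w.1 w.2
        apply Subtype.ext
        have : v.1 / 2 = w.1 / 2 := hvw
        omega
    rw [Set.ncard_coe_finset] at h1
    exact h1.trans (card_union_le _ _)
  · have : Fintype ((Eᶜ : Set {a : ℕ // V a}) : Type) := Fintype.ofFinite _
    have hmem : ∀ v : (Eᶜ : Set {a : ℕ // V a}), v.1.1 / 2 ∈ X ∧ v.1.1 = 2 * (v.1.1 / 2) := by
      intro v
      have h1 := v.2
      rw [Set.mem_compl_iff, hE, not_not] at h1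
      obtain ⟨⟨r, hr⟩, -⟩ := hV1 v.1.1 v.1.2
      exact ⟨h1, by omega⟩
    refine comps (M := n) (δ := δ) (by exact_mod_cast hn) hδ ?_ ?_ hk
    · have h1 : Fintype.card (Eᶜ : Set {a : ℕ // V a}) ≤ (Icc 1 n).card := by
        rw [← card_univ]
        apply card_le_card_of_injOn (fun v => v.1.1 / 2)
        · intro v _
          exact hX (hmem v).1
        · intro v _ w _ hvw
          apply Subtype.ext
          apply Subtype.ext
          rw [(hmem v).2, (hmem w).2]
          exact congrArg (2 * ·) hvw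
      rw [Nat.card_Icc] at h1
      exact_mod_cast (by omega : Fintype.card (Eᶜ : Set {a : ℕ // V a}) ≤ n)
    · intro v
      have hv := hmem v
      refine (h _ hv.1).trans ?_
      have hmk : ∀ c, ∃ w : (Eᶜ : Set {a : ℕ // V a}), c ∈ X → w.1.1 = 2 * c := by
        intro c
        by_cases hc : c ∈ X
        swap
        · exact ⟨v, fun h => absurd h hc⟩
        have hc' := mem_Icc.1 (hX hc)
        have hVc : V (2 * c) := hV2 _ (even_two_mul c) (by omega) (by omega)
        refine ⟨⟨⟨2 * c, hVc⟩, ?_⟩, fun _ => rfl⟩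
        rw [Set.mem_compl_iff, hE, not_not]
        rwa [show 2 * c / 2 = c by omega]
      have hadj : ∀ u w : (Eᶜ : Set {a : ℕ // V a}), w.1.1 / 2 ∈ nbr n (u.1.1 / 2) →
          ((graph V A).induce Eᶜ).Adj u w := by
        intro u w huw
        have hu := hmem u
        have hw := hmem w
        have hu' := mem_Icc.1 (hX hu.1)
        obtain ⟨h1, h2, h3, h4, -, h5, h6, h7⟩ := edge huw hu'.1 hu'.2
        rw [← hu.2, ← hw.2] at h2 h3 h4 h5 h6 h7
        rw [SimpleGraph.induce_adj]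
        refine ⟨?_, hA _ h2 h3 h4, hA _ h5 h6 h7⟩
        intro he
        apply h1
        rw [he]
      have hle : (two n X (v.1.1 / 2)).card ≤ (ball ((graph V A).induce Eᶜ) v).card := by
        choose f hf using hmk
        apply card_le_card_of_injOn f
        · intro c hc
          unfold two at hc
          rw [mem_coe, mem_filter] at hc
          obtain ⟨hcX, b, hb⟩ := hc
          rw [mem_inter, mem_inter] at hb
          obtain ⟨⟨hb1, hb2⟩, hbX⟩ := hb
          have e1 : (f c).1.1 / 2 = c := by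
            rw [hf c hcX]
            omega
          have e2 : (f b).1.1 / 2 = b := by
            rw [hf b hbX]
            omega
          rw [mem_coe, mem_ball]
          have a1 : ((graph V A).induce Eᶜ).Adj v (f b) := hadj _ _ (by rwa [e2])
          have a2 : ((graph V A).induce Eᶜ).Adj (f c) (f b) := hadj _ _ (by rwa [e1, e2])
          exact ⟨Walk.cons a1 (Walk.cons a2.symm Walk.nil), by simp⟩
        · intro c hc d hd hcd
          have hcX : c ∈ X := (mem_filter.1 hc).1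
          have hdX : d ∈ X := (mem_filter.1 hd).1
          have h1 := hf c hcX
          have h2 := hf d hdX
          rw [hcd] at h1
          omega
      exact_mod_cast hle

end Pool.Agent.V1153.GG
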