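import Mathlib
import Pool.Agent.V1153.GG.Gr

/-!
The vertices `52` and `410` have distance at least `5`.
-/

set_option autoImplicit false

namespace Pool.Agent.V1153.GG

open SimpleGraph

theorem not_adm {n y m q : ℕ} (hq : q.Prime) (hqy : q ≤ y) (hqm : q ∣ m) (hne : q ≠ m)
    (h1 : m ≠ 1) : ¬ (m = 1 ∨ Adm n y m) := by
  rintro (h | ⟨-, -, h | ⟨-, h⟩⟩)
  · exact h1 h
  · exact hne ((Nat.prime_dvd_prime_iff_eq hq h).1 hqm)
  · have := h q hq hqm
    omega

theorem adm_three {n y m : ℕ} (hy : 3 ≤ y) (h : m = 1 ∨ Adm n y m) (h3 : 3 ∣ m) : m = 3 := by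
  by_contra hne
  refine not_adm (q := 3) Nat.prime_three hy h3 (Ne.symm hne) ?_ h
  rintro rfl
  omega

theorem adm_odd {n y m : ℕ} (h : m = 1 ∨ Adm n y m) : m % 2 = 1 := by
  rcases h with rfl | h
  · rfl
  · exact Nat.odd_iff.1 h.1

variable {n y : ℕ} {V A : ℕ → Prop}

theorem edge (hV : ∀ a, V a → Even a ∧ a ≤ 2 * n) (hA : ∀ m, A m → m = 1 ∨ Adm n y m)
    {a b : {a : ℕ // V a}} (h : (graph V A).Adj a b) {k l : ℕ} (hk : a.1 = 2 * k) (hl : b.1 = 2 * l) :
    (k + l = 1 ∨ Adm n y (k + l)) ∧
      (((k : ℤ) - l).natAbs = 1 ∨ Adm n y ((k : ℤ) - l).natAbs) := by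
  obtain ⟨-, h1, h2⟩ := h
  have h3 : (a.1 + b.1) / 2 = k + l := by omega
  have h4 : ((a.1 : ℤ) - b.1).natAbs / 2 = ((k : ℤ) - l).natAbs := by omega
  rw [h3] at h1
  rw [h4] at h2
  exact ⟨hA _ h1, hA _ h2⟩

theorem walk_parity (hV : ∀ a, V a → Even a ∧ a ≤ 2 * n) (hA : ∀ m, A m → m = 1 ∨ Adm n y m)
    {a b : {a : ℕ // V a}} (p : (graph V A).Walk a b) : (a.1 / 2 + b.1 / 2 + p.length) % 2 = 0 := by
  induction p with
  | nil => simp only [Walk.length_nil]; omega
  | @cons a c b h q ih =>
      obtain ⟨⟨k, hk⟩, -⟩ := hV a.1 a.2
      obtain ⟨⟨l, hl⟩, -⟩ := hV c.1 c.2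
      have h1 := adm_odd (edge hV hA h (k := k) (l := l) (by omega) (by omega)).1
      rw [Walk.length_cons]
      omega

theorem lower (hy : 11 ≤ y) (hV : ∀ a, V a → Even a ∧ a ≤ 2 * n)
    (hA : ∀ m, A m → m = 1 ∨ Adm n y m) (h52 : V 52) (h410 : V 410)
    (p : (graph V A).Walk ⟨52, h52⟩ ⟨410, h410⟩) : 5 ≤ p.length := by
  have hpar := walk_parity hV hA p
  dsimp only at hpar
  by_contra hlt
  have hcase : p.length = 1 ∨ p.length = 3 := by omega
  clear hpar hlt
  rcases hcase with hl | hl
  · -- length one
    cases p with
    | cons h q =>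
      cases q with
      | nil =>
        obtain ⟨h1, -⟩ := edge hV hA h (k := 26) (l := 205) rfl rfl
        exact not_adm (q := 3) Nat.prime_three (by omega) (by norm_num) (by norm_num) (by norm_num) h1
      | cons h' q' =>
        simp only [Walk.length_cons] at hl
        omega
  · -- length three
    cases p with
    | cons h1 q =>
      rename_i x
      cases q with
      | nil => simp at hl
      | cons h2 q =>
        rename_i z
        cases q with
        | nil => simp at hl
        | cons h3 q =>
          cases q with
          | cons h4 q =>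
            simp only [Walk.length_cons] at hl
            omega
          | nil =>
            clear hl
            obtain ⟨⟨k, hk⟩, -⟩ := hV x.1 x.2
            obtain ⟨⟨l, hl⟩, -⟩ := hV z.1 z.2
            obtain ⟨a1, a2⟩ := edge hV hA h1 (k := 26) (l := k) rfl (by omega)
            obtain ⟨b1, b2⟩ := edge hV hA h2 (k := k) (l := l) (by omega) (by omega)
            obtain ⟨c1, c2⟩ := edge hV hA h3 (k := l) (l := 205) (by omega) rfl
            have n1 : ¬ 3 ∣ 26 + k := fun h => by
              have := adm_three (by omega) a1 h
              omega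
            have n2 : ¬ 3 ∣ (((26 : ℕ) : ℤ) - k).natAbs := fun h => by
              have h5 := adm_three (by omega) a2 h
              have h6 : k = 23 ∨ k = 29 := by omega
              rcases h6 with rfl | rfl
              · exact not_adm (q := 7) (by norm_num) (by omega) (by norm_num) (by norm_num)
                  (by norm_num) a1
              · exact not_adm (q := 5) (by norm_num) (by omega) (by norm_num) (by norm_num)
                  (by norm_num) a1
            have n3 : 3 ∣ k := (three_iff n1 n2).2 (by norm_num)
            have m1 : ¬ 3 ∣ 205 + l := fun h => by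
              rw [add_comm] at h
              have := adm_three (by omega) c1 h
              omega
            have m2 : ¬ 3 ∣ (((205 : ℕ) : ℤ) - l).natAbs := fun h => by
              rw [← Int.natAbs_neg, neg_sub] at h
              have h5 := adm_three (by omega) c2 h
              have h6 : l = 202 ∨ l = 208 := by omega
              rcases h6 with rfl | rfl
              · exact not_adm (q := 11) (by norm_num) (by omega) (by norm_num) (by norm_num)
                  (by norm_num) c1
              · exact not_adm (q := 7) (by norm_num) (by omega) (by norm_num) (by norm_num)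
                  (by norm_num) c1
            have m3 : 3 ∣ l := (three_iff m1 m2).2 (by norm_num)
            have h5 := adm_three (by omega) b1 (dvd_add n3 m3)
            have h6 := adm_odd a1
            have h7 : l = 0 := by omega
            subst h7
            exact not_adm (q := 5) (by norm_num) (by omega) (by norm_num) (by norm_num)
              (by norm_num) c1

end Pool.Agent.V1153.GG
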